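import Mathlib
import Pool.Agent.Helper902.NARos
import Pool.Agent.Helper902.NASimons
import Pool.Agent.Helper902.NAStab

/-!
Bounded sequences of functionals: a pointwise convergent subsequence, or a subsequence which is
equivalent to the unit vector basis of the space of summable sequences.
-/

set_option autoImplicit false

open Filter Topology Finset

namespace Pool.Agent.P8H75.JN

/-- countably many oscillation levels: hereditary oscillation at one level, or a subsequence without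
oscillation at any level -/
theorem all_levels {Ω : Type*} (A B : ℕ → ℕ → Set Ω) :
    (∃ i, ∃ M₀ : Set ℕ, M₀.Infinite ∧ ∀ M : Set ℕ, M ⊆ M₀ → M.Infinite →
      ∃ y : Ω, {n | n ∈ M ∧ y ∈ A i n}.Infinite ∧ {n | n ∈ M ∧ y ∈ B i n}.Infinite) ∨
    (∃ φ : ℕ → ℕ, StrictMono φ ∧ ∀ (i : ℕ) (y : Ω),
      ¬ ({n | y ∈ A i (φ n)}.Infinite ∧ {n | y ∈ B i (φ n)}.Infinite)) := by
  classical
  by_cases hex : ∃ i, ∃ M₀ : Set ℕ, M₀.Infinite ∧ ∀ M : Set ℕ, M ⊆ M₀ → M.Infinite →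
      ∃ y : Ω, {n | n ∈ M ∧ y ∈ A i n}.Infinite ∧ {n | n ∈ M ∧ y ∈ B i n}.Infinite
  · exact Or.inl hex
  · right
    push Not at hex
    have hex' : ∀ (i : ℕ) (M₀ : {M : Set ℕ // M.Infinite}), ∃ M : {M : Set ℕ // M.Infinite},
        M.1 ⊆ M₀.1 ∧ ∀ y : Ω, ¬ ({n | n ∈ M.1 ∧ y ∈ A i n}.Infinite ∧
          {n | n ∈ M.1 ∧ y ∈ B i n}.Infinite) := by
      rintro i ⟨M₀, hM₀⟩
      obtain ⟨M, h1, h2, h3⟩ := hex i M₀ hM₀
      refine ⟨⟨M, h2⟩, h1, fun y hy => ?_⟩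
      exact hy.2 (h3 y hy.1)
    choose nx hnx1 hnx2 using hex'
    let S : ℕ → {M : Set ℕ // M.Infinite} := fun k =>
      Nat.rec ⟨Set.univ, Set.infinite_univ⟩ (fun i M => nx i M) k
    have hS : ∀ k, S (k + 1) = nx k (S k) := fun k => rfl
    have hanti : ∀ k l, k ≤ l → (S l).1 ⊆ (S k).1 := by
      intro k l hkl
      induction l, hkl using Nat.le_induction with
      | base => exact subset_rfl
      | succ l _ ih => rw [hS]; exact (hnx1 l (S l)).trans ih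
    obtain ⟨φ, hφ, hφS⟩ := Filter.extraction_forall_of_frequently
      (P := fun n k => k ∈ (S (n + 1)).1)
      (fun n => Nat.frequently_atTop_iff_infinite.2 (S (n + 1)).2)
    refine ⟨φ, hφ, fun i y hy => ?_⟩
    have key : ∀ C : ℕ → Set Ω, {n | y ∈ C (φ n)}.Infinite →
        {n | n ∈ (nx i (S i)).1 ∧ y ∈ C n}.Infinite := by
      intro C hC
      have h1 : ({n | y ∈ C (φ n)} \ {n | n < i}).Infinite :=
        hC.sdiff (Set.finite_lt_nat i)
      have h2 := h1.image (hφ.injective.injOn (s := {n | y ∈ C (φ n)} \ {n | n < i}))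
      refine h2.mono ?_
      rintro _ ⟨n, ⟨hn1, hn2⟩, rfl⟩
      refine ⟨?_, hn1⟩
      have hn3 : i ≤ n := not_lt.1 hn2
      have h4 := hanti (i + 1) (n + 1) (by omega) (hφS n)
      rw [hS] at h4
      exact h4
    exact hnx2 i (S i) y ⟨key (A i) hy.1, key (B i) hy.2⟩

variable {E : Type*} [NormedAddCommGroup E] [NormedSpace ℝ E]

/-- A bounded sequence of functionals has a pointwise convergent subsequence or a subsequence with a
lower `ℓ₁` estimate. -/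
theorem dichotomy (v : ℕ → (E →L[ℝ] ℝ)) (R : ℝ) (hR : ∀ n, ‖v n‖ ≤ R) :
    (∃ φ : ℕ → ℕ, StrictMono φ ∧ ∀ y : E, ∃ c : ℝ, Tendsto (fun n => v (φ n) y) atTop (𝓝 c)) ∨
    (∃ φ : ℕ → ℕ, StrictMono φ ∧ ∃ c : ℝ, 0 < c ∧ ∀ (n : ℕ) (a : ℕ → ℝ),
      c * ∑ j ∈ range n, |a j| ≤ ‖∑ j ∈ range n, a j • v (φ j)‖) := by
  classical
  have : Nonempty {p : ℚ × ℚ // p.1 < p.2} := ⟨⟨(0, 1), by norm_num⟩⟩
  obtain ⟨e, he⟩ := exists_surjective_nat {p : ℚ × ℚ // p.1 < p.2}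
  let A : ℕ → ℕ → Set {y : E // ‖y‖ ≤ 1} := fun i n => {y | ((e i).1.2 : ℝ) < v n y.1}
  let B : ℕ → ℕ → Set {y : E // ‖y‖ ≤ 1} := fun i n => {y | v n y.1 < ((e i).1.1 : ℝ)}
  have hR0 : 0 ≤ R := (norm_nonneg _).trans (hR 0)
  rcases all_levels A B with ⟨i, M₀, hM₀, hosc⟩ | ⟨φ, hφ, hno⟩
  · right
    obtain ⟨φ, hφ, -, hind⟩ :=
      Pool.Agent.Helper902.NA.rosenthal_independent (A i) (B i) M₀ hM₀ hosc
    set p : ℝ := ((e i).1.1 : ℝ) with hp
    set q : ℝ := ((e i).1.2 : ℝ) with hq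
    have hpq : p < q := by rw [hp, hq]; exact_mod_cast (e i).2
    refine ⟨φ, hφ, (q - p) / 2, by linarith, fun n a => ?_⟩
    obtain ⟨y₁, hy₁⟩ := hind n {j | 0 ≤ a j}
    obtain ⟨y₂, hy₂⟩ := hind n {j | ¬ (0 ≤ a j)}
    set s := ∑ j ∈ range n, a j • v (φ j) with hs
    have happ : ∀ y : E, s y = ∑ j ∈ range n, a j * v (φ j) y := by
      intro y
      rw [hs, _root_.sum_apply]
      rfl
    have h1 : (q - p) * ∑ j ∈ range n, |a j| ≤ s y₁.1 - s y₂.1 := by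
      rw [happ, happ, ← Finset.sum_sub_distrib, Finset.mul_sum]
      apply Finset.sum_le_sum
      intro j hj
      have hj' : j < n := Finset.mem_range.1 hj
      by_cases ha : 0 ≤ a j
      · have h3 : q < v (φ j) y₁.1 := (hy₁ j hj').1 ha
        have h4 : v (φ j) y₂.1 < p := (hy₂ j hj').2 (fun h => h ha)
        rw [abs_of_nonneg ha]
        nlinarith
      · have h3 : v (φ j) y₁.1 < p := (hy₁ j hj').2 ha
        have h4 : q < v (φ j) y₂.1 := (hy₂ j hj').1 ha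
        push Not at ha
        rw [abs_of_neg ha]
        nlinarith
    have h2 : ∀ y : {y : E // ‖y‖ ≤ 1}, |s y.1| ≤ ‖s‖ := by
      intro y
      calc |s y.1| = ‖s y.1‖ := (Real.norm_eq_abs _).symm
        _ ≤ ‖s‖ * ‖y.1‖ := s.le_opNorm _
        _ ≤ ‖s‖ * 1 := mul_le_mul_of_nonneg_left y.2 (norm_nonneg _)
        _ = ‖s‖ := mul_one _
    have h3 := abs_le.1 (h2 y₁)
    have h4 := abs_le.1 (h2 y₂)
    linarith
  · left
    refine ⟨φ, hφ, ?_⟩
    -- convergence on the unit ball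
    have hball : ∀ y : {y : E // ‖y‖ ≤ 1}, ∃ c : ℝ,
        Tendsto (fun n => v (φ n) y.1) atTop (𝓝 c) := by
      intro y
      have hb : ∀ n, |v (φ n) y.1| ≤ R := by
        intro n
        calc |v (φ n) y.1| = ‖v (φ n) y.1‖ := (Real.norm_eq_abs _).symm
          _ ≤ ‖v (φ n)‖ * ‖y.1‖ := (v (φ n)).le_opNorm _
          _ ≤ R * 1 := mul_le_mul (hR _) y.2 (norm_nonneg _) hR0
          _ = R := mul_one _
      refine tendsto_of_no_upcrossings (s := Set.range ((↑) : ℚ → ℝ)) Rat.denseRange_cast ?_ ?_ ?_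
      · rintro _ ⟨a, rfl⟩ _ ⟨b, rfl⟩ hab ⟨h1, h2⟩
        have hab' : a < b := by exact_mod_cast hab
        obtain ⟨i, hi⟩ := he ⟨(a, b), hab'⟩
        refine hno i y ⟨?_, ?_⟩
        · refine (Nat.frequently_atTop_iff_infinite.1 h2).mono ?_
          intro n hn
          change ((e i).1.2 : ℝ) < v (φ n) y.1
          rw [hi]
          exact hn
        · refine (Nat.frequently_atTop_iff_infinite.1 h1).mono ?_
          intro n hn
          change v (φ n) y.1 < ((e i).1.1 : ℝ)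
          rw [hi]
          exact hn
      · exact ⟨R, Filter.eventually_map.2 (Filter.Eventually.of_forall fun n => (abs_le.1 (hb n)).2)⟩
      · exact ⟨-R, Filter.eventually_map.2 (Filter.Eventually.of_forall fun n => (abs_le.1 (hb n)).1)⟩
    intro y
    rcases eq_or_ne y 0 with rfl | hy
    · exact ⟨0, by simp⟩
    · have hpos : 0 < ‖y‖ := norm_pos_iff.2 hy
      obtain ⟨c, hc⟩ := hball ⟨‖y‖⁻¹ • y, by rw [norm_smul, norm_inv, norm_norm,
        inv_mul_cancel₀ hpos.ne']⟩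
      refine ⟨‖y‖ * c, ?_⟩
      have := hc.const_mul ‖y‖
      refine this.congr fun n => ?_
      simp only [map_smul, smul_eq_mul]
      rw [← mul_assoc, mul_inv_cancel₀ hpos.ne', one_mul]

/-- Simons' inequality on a normed space all of whose functionals attain their norm. -/
theorem simons (hNA : ∀ f : E →L[ℝ] ℝ, ∃ x : E, ‖x‖ ≤ 1 ∧ f x = ‖f‖)
    (u : ℕ → (E →L[ℝ] ℝ)) (hu : ∀ n, ‖u n‖ ≤ 1) (β : ℝ)
    (hβ : ∀ z ∈ convexHull ℝ (Set.range u), β ≤ ‖z‖) (η : ℝ) (hη : 0 < η) :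
    ∃ x : E, ‖x‖ ≤ 1 ∧ ∀ N : ℕ, ∃ n ≥ N, β - η ≤ u n x := by
  obtain ⟨y, ⟨x, hx1, hx2⟩, -, hy⟩ := Pool.Agent.Helper902.NA.simons_abs
    (X := E →L[ℝ] ℝ) (B := E →L[ℝ] ℝ) (ContinuousLinearMap.id ℝ _) (fun u => le_rfl) 0 u hu
    (fun y => ∃ x : E, ‖x‖ ≤ 1 ∧ ∀ f : E →L[ℝ] ℝ, y f = f x) (by
      intro f t
      obtain ⟨x, hx1, hx2⟩ := hNA f
      refine ⟨NormedSpace.inclusionInDoubleDual ℝ E x, ⟨x, hx1, fun g => rfl⟩, ?_, ?_⟩
      · exact (NormedSpace.double_dual_bound ℝ E x).trans hx1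
      · simp only [ContinuousLinearMap.id_apply, smul_zero, add_zero]
        exact hx2)
    β (by
      intro z hz
      simpa using hβ z hz) η hη
  refine ⟨x, hx1, fun N => ?_⟩
  obtain ⟨n, hn, h⟩ := hy N
  refine ⟨n, hn, ?_⟩
  rw [map_zero, sub_zero, ContinuousLinearMap.id_apply, hx2] at h
  exact h

end Pool.Agent.P8H75.JN
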