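import Mathlib
import Pool.Agent.P8H75.JN1

/-!
James' distortion theorem for sequences equivalent to the unit vector basis of `ℓ₁`, and the
resulting dyadic tree of functionals.
-/

set_option autoImplicit false

open Filter Topology Finset

namespace Pool.Agent.P8H75.JN

open Pool.Agent.Helper902.NA

section james

variable {V : Type*} [NormedAddCommGroup V] [NormedSpace ℝ V]

/-- James' distortion: blocks of an `ℓ₁` sequence which are asymptotically isometric. -/
theorem james_l1 (e : ℕ → V) (c C : ℝ) (hc : 0 < c) (hC : ∀ n, ‖e n‖ ≤ C)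
    (hlow : ∀ (n : ℕ) (a : ℕ → ℝ), c * ∑ j ∈ range n, |a j| ≤ ‖∑ j ∈ range n, a j • e j‖) :
    ∃ w : ℕ → V, (∀ n, ‖w n‖ ≤ 1) ∧ ∀ η : ℝ, 0 < η → ∃ N : ℕ, ∀ (n : ℕ) (a : ℕ → ℝ),
      (∀ j < N, a j = 0) →
        (1 - η) * ∑ j ∈ range n, |a j| ≤ ‖∑ j ∈ range n, a j • w j‖ := by
  classical
  set T : (ℕ →₀ ℝ) →ₗ[ℝ] V := Finsupp.linearCombination ℝ e with hT
  have hTv : ∀ (v : ℕ →₀ ℝ) (M : ℕ), st_hd M v → T v = ∑ i ∈ range M, v i • e i := by
    intro v M hM
    rw [hT, Finsupp.linearCombination_apply]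
    refine Finsupp.sum_of_support_subset v ?_ _ (fun i _ => zero_smul ℝ (e i))
    intro i hi
    rw [Finset.mem_range]
    by_contra hcon
    exact (Finsupp.mem_support_iff.1 hi) (hM i (not_lt.1 hcon))
  have hlowT : ∀ v : ℕ →₀ ℝ, c * st_q v ≤ ‖T v‖ := by
    intro v
    obtain ⟨M, hM⟩ := st_exists_hd v
    rw [hTv v M hM, st_q_eq hM]
    exact hlow M v
  have hupT : ∀ v : ℕ →₀ ℝ, ‖T v‖ ≤ C * st_q v := by
    intro v
    obtain ⟨M, hM⟩ := st_exists_hd v
    rw [hTv v M hM, st_q_eq hM, Finset.mul_sum]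
    refine (norm_sum_le _ _).trans (Finset.sum_le_sum fun i _ => ?_)
    rw [norm_smul, Real.norm_eq_abs, mul_comm]
    exact mul_le_mul_of_nonneg_right (hC i) (abs_nonneg _)
  -- the tail infima
  let S : ℕ → Set ℝ := fun M => (fun v => ‖T v‖) '' {v | st_tl M v ∧ st_q v = 1}
  have hsing : ∀ M : ℕ, st_tl M (Finsupp.single M (1 : ℝ)) ∧ st_q (Finsupp.single M (1 : ℝ)) = 1 := by
    intro M
    refine ⟨fun i hi => ?_, ?_⟩
    · rw [Finsupp.single_apply, if_neg (by omega)]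
    · unfold st_q
      rw [Finsupp.support_single_ne_zero M one_ne_zero, Finset.sum_singleton,
        Finsupp.single_eq_same, abs_one]
  have hSne : ∀ M, (S M).Nonempty := fun M => ⟨_, _, hsing M, rfl⟩
  have hSbd : ∀ M, BddBelow (S M) := fun M => ⟨0, by rintro _ ⟨v, _, rfl⟩; exact norm_nonneg _⟩
  let k : ℕ → ℝ := fun M => sInf (S M)
  have hkc : ∀ M, c ≤ k M := by
    intro M
    refine le_csInf (hSne M) ?_
    rintro _ ⟨v, ⟨_, hv⟩, rfl⟩
    have := hlowT v
    rw [hv, mul_one] at this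
    exact this
  have hkC : ∀ M, k M ≤ C := by
    intro M
    refine (csInf_le (hSbd M) ⟨_, hsing M, rfl⟩).trans ?_
    have := hupT (Finsupp.single M (1 : ℝ))
    rw [(hsing M).2, mul_one] at this
    exact this
  have hkmono : Monotone k := by
    intro M M' hMM
    refine csInf_le_csInf (hSbd M) (hSne M') ?_
    rintro _ ⟨v, ⟨hv1, hv2⟩, rfl⟩
    exact ⟨v, ⟨st_tl_mono hMM hv1, hv2⟩, rfl⟩
  have hklow : ∀ (M : ℕ) (v : ℕ →₀ ℝ), st_tl M v → k M * st_q v ≤ ‖T v‖ := by
    intro M v hv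
    rcases (st_q_nonneg v).eq_or_lt with h0 | h0
    · rw [← h0, mul_zero]; exact norm_nonneg _
    · have h1 : k M ≤ ‖T ((st_q v)⁻¹ • v)‖ := by
        refine csInf_le (hSbd M) ⟨_, ⟨?_, ?_⟩, rfl⟩
        · intro i hi
          rw [Finsupp.smul_apply, hv i hi, smul_zero]
        · rw [st_q_smul, abs_of_pos (inv_pos.2 h0), inv_mul_cancel₀ h0.ne']
      rw [map_smul, norm_smul, Real.norm_eq_abs, abs_of_pos (inv_pos.2 h0)] at h1
      calc k M * st_q v ≤ ((st_q v)⁻¹ * ‖T v‖) * st_q v :=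
            mul_le_mul_of_nonneg_right h1 h0.le
        _ = ‖T v‖ := by field_simp
  have hkbdd : BddAbove (Set.range k) := ⟨C, by rintro _ ⟨M, rfl⟩; exact hkC M⟩
  set K : ℝ := ⨆ M, k M with hK
  have hKpos : 0 < K := hc.trans_le ((hkc 0).trans (le_ciSup hkbdd 0))
  have hkK : ∀ M, k M ≤ K := fun M => le_ciSup hkbdd M
  have hktend : Tendsto k atTop (𝓝 K) := tendsto_atTop_ciSup hkmono hkbdd
  -- the blocks
  have hpick : ∀ M : ℕ, ∃ v : ℕ →₀ ℝ, st_tl M v ∧ st_q v = 1 ∧ ‖T v‖ < K + 1 / ((M : ℝ) + 1) := by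
    intro M
    obtain ⟨_, ⟨v, ⟨hv1, hv2⟩, rfl⟩, hv3⟩ := Real.lt_sInf_add_pos (hSne M)
      (show (0 : ℝ) < 1 / ((M : ℝ) + 1) by positivity)
    refine ⟨v, hv1, hv2, hv3.trans_le ?_⟩
    have := hkK M
    change k M + _ ≤ _
    linarith
  choose f hf1 hf2 hf3 using hpick
  choose g hg using st_exists_hd
  let L : ℕ → ℕ := fun j => Nat.rec 0 (fun _ l => max (l + 1) (g (f l))) j
  have hL : ∀ j, L (j + 1) = max (L j + 1) (g (f (L j))) := fun j => rfl
  have hLlt : ∀ j, L j < L (j + 1) := fun j => by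
    rw [hL]; exact lt_of_lt_of_le (Nat.lt_succ_self _) (le_max_left _ _)
  have hLge := st_L_ge hLlt
  let v : ℕ → (ℕ →₀ ℝ) := fun j => f (L j)
  have hv1 : ∀ j, st_tl (L j) (v j) := fun j => hf1 _
  have hv2 : ∀ j, st_hd (L (j + 1)) (v j) := fun j => by
    apply st_hd_mono _ (hg _)
    rw [hL]
    exact le_max_right _ _
  have hv3 : ∀ j, st_q (v j) = 1 := fun j => hf2 _
  set ρ : ℕ → ℝ := fun j => K + 1 / ((j : ℝ) + 1) with hρ
  have hρK : ∀ j, K < ρ j := fun j => by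
    have : (0 : ℝ) < 1 / ((j : ℝ) + 1) := by positivity
    simp only [hρ]; linarith
  have hρpos : ∀ j, 0 < ρ j := fun j => hKpos.trans (hρK j)
  have hρanti : ∀ i j, i ≤ j → ρ j ≤ ρ i := by
    intro i j hij
    simp only [hρ]
    have : 1 / ((j : ℝ) + 1) ≤ 1 / ((i : ℝ) + 1) := by
      apply one_div_le_one_div_of_le (by positivity)
      have : (i : ℝ) ≤ j := by exact_mod_cast hij
      linarith
    linarith
  have hTvn : ∀ j, ‖T (v j)‖ ≤ ρ j := by
    intro j
    refine (hf3 (L j)).le.trans ?_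
    have h1 := hρanti j (L j) (hLge j)
    exact h1
  refine ⟨fun j => (ρ j)⁻¹ • T (v j), fun j => ?_, fun η hη => ?_⟩
  · rw [norm_smul, Real.norm_eq_abs, abs_of_pos (inv_pos.2 (hρpos j)),
      inv_mul_le_iff₀ (hρpos j), mul_one]
    exact hTvn j
  · -- choice of the index
    have hρtend : Tendsto ρ atTop (𝓝 K) := by
      have := tendsto_one_div_add_atTop_nhds_zero_nat (𝕜 := ℝ)
      simpa [hρ] using (tendsto_const_nhds (x := K)).add this
    have hquot : Tendsto (fun N => k N / ρ N) atTop (𝓝 (K / K)) := hktend.div hρtend hKpos.ne'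
    rw [div_self hKpos.ne'] at hquot
    obtain ⟨N, hN⟩ := (hquot.eventually (lt_mem_nhds (show 1 - η < 1 by linarith))).exists
    refine ⟨N, fun n a ha => ?_⟩
    set b : ℕ → ℝ := fun j => a j * (ρ j)⁻¹ with hb
    have hsum : ∑ j ∈ range n, a j • ((ρ j)⁻¹ • T (v j)) = T (∑ j ∈ range n, b j • v j) := by
      rw [map_sum]
      refine Finset.sum_congr rfl fun j _ => ?_
      rw [map_smul, smul_smul]
    have htl : st_tl N (∑ j ∈ range n, b j • v j) := by
      have : (∑ j ∈ range n, b j • v j) ∈ st_tlS N := by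
        refine Submodule.sum_mem _ fun j _ => ?_
        rcases lt_or_ge j N with h | h
        · rw [hb]; simp only; rw [ha j h, zero_mul, zero_smul]; exact Submodule.zero_mem _
        · refine Submodule.smul_mem _ _ ?_
          change st_tl N (v j)
          exact st_tl_mono (h.trans (hLge j)) (hv1 j)
      exact this
    rw [hsum]
    have h1 := hklow N _ htl
    rw [st_sum_q hv1 hv2 (fun j => (hLlt j).le) hv3] at h1
    have h2 : (ρ N)⁻¹ * ∑ j ∈ range n, |a j| ≤ ∑ j ∈ range n, |b j| := by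
      rw [Finset.mul_sum]
      refine Finset.sum_le_sum fun j _ => ?_
      rcases lt_or_ge j N with h | h
      · rw [hb]; simp only; rw [ha j h]; simp
      · rw [hb]; simp only
        rw [abs_mul, abs_of_pos (inv_pos.2 (hρpos j)), mul_comm]
        refine mul_le_mul_of_nonneg_left ?_ (abs_nonneg _)
        exact inv_anti₀ (hρpos j) (hρanti N j h)
    have hsn : 0 ≤ ∑ j ∈ range n, |a j| := Finset.sum_nonneg fun _ _ => abs_nonneg _
    calc (1 - η) * ∑ j ∈ range n, |a j| ≤ (k N / ρ N) * ∑ j ∈ range n, |a j| :=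
          mul_le_mul_of_nonneg_right hN.le hsn
      _ = k N * ((ρ N)⁻¹ * ∑ j ∈ range n, |a j|) := by rw [div_eq_mul_inv]; ring
      _ ≤ k N * ∑ j ∈ range n, |b j| :=
          mul_le_mul_of_nonneg_left h2 (hc.le.trans (hkc N))
      _ ≤ _ := h1

end james

end Pool.Agent.P8H75.JN
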