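import Mathlib
import Pool.Agent.P8H75.JN2

/-!
A dyadic tree of functionals over an asymptotically isometric `ℓ₁` sequence in the dual of a space
all of whose functionals attain their norm.
-/

set_option autoImplicit false

open Filter Topology Finset

namespace Pool.Agent.P8H75.JN

open Pool.Agent.Helper902.NA

section split

variable {E : Type*} [NormedAddCommGroup E] [NormedSpace ℝ E]

/-- One step: a point of the unit ball which splits finitely many subsequences. -/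
theorem split (hNA : ∀ f : E →L[ℝ] ℝ, ∃ x : E, ‖x‖ ≤ 1 ∧ f x = ‖f‖)
    (w : ℕ → (E →L[ℝ] ℝ)) (hw : ∀ n, ‖w n‖ ≤ 1)
    (hT : ∀ η : ℝ, 0 < η → ∃ N : ℕ, ∀ (n : ℕ) (a : ℕ → ℝ), (∀ j < N, a j = 0) →
        (1 - η) * ∑ j ∈ range n, |a j| ≤ ‖∑ j ∈ range n, a j • w j‖)
    (K : ℕ) (hK : 0 < K) (M : ℕ → Set ℕ) (hM : ∀ i, (M i).Infinite) :
    ∃ (x : E) (M' : ℕ → Set ℕ), ‖x‖ ≤ 1 ∧ (∀ i, (M' i).Infinite) ∧
      (∀ i < K, M' i ⊆ M i ∧ ∀ k ∈ M' i, 1 / 2 ≤ w k x) ∧
      (∀ i < K, M' (K + i) ⊆ M i ∧ ∀ k ∈ M' (K + i), w k x ≤ -(1 / 2)) := by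
  classical
  have hKR : (0 : ℝ) < K := by exact_mod_cast hK
  set η : ℝ := 1 / (8 * K) with hη
  have hη0 : 0 < η := by positivity
  obtain ⟨N, hN⟩ := hT η hη0
  -- the choice of the indices
  obtain ⟨φ, hφ, hφM⟩ := Filter.extraction_forall_of_frequently
    (P := fun n k => k ∈ M (n % K) ∧ N ≤ k)
    (fun n => ((Nat.frequently_atTop_iff_infinite.2 (hM (n % K))).and_eventually
      (eventually_ge_atTop N)))
  -- signs
  let σ : ℕ → ℝ := fun r => if r % (2 * K) < K then 1 else -1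
  have hσabs : ∀ r, |σ r| = 1 := by
    intro r; simp only [σ]; split_ifs <;> simp
  have hσsq : ∀ r, σ r * σ r = 1 := by
    intro r; simp only [σ]; split_ifs <;> norm_num
  let θ : ℕ → ℝ := fun k => if h : ∃ m, φ m = k then σ h.choose else 1
  have hθφ : ∀ m, θ (φ m) = σ m := by
    intro m
    have h : ∃ m', φ m' = φ m := ⟨m, rfl⟩
    simp only [θ, dif_pos h]
    rw [hφ.injective h.choose_spec]
  have hθabs : ∀ k, |θ k| = 1 := by
    intro k; simp only [θ]; split_ifs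
    · exact hσabs _
    · simp
  -- linear maps on finitely supported sequences
  set T : (ℕ →₀ ℝ) →ₗ[ℝ] (E →L[ℝ] ℝ) := Finsupp.linearCombination ℝ w with hTd
  set Θ : (ℕ →₀ ℝ) →ₗ[ℝ] ℝ := Finsupp.linearCombination ℝ θ with hΘ
  have hTv : ∀ (v : ℕ →₀ ℝ) (M : ℕ), st_hd M v → T v = ∑ i ∈ range M, v i • w i := by
    intro v M hM
    rw [hTd, Finsupp.linearCombination_apply]
    refine Finsupp.sum_of_support_subset v ?_ _ (fun i _ => zero_smul ℝ (w i))
    intro i hi
    rw [Finset.mem_range]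
    by_contra hcon
    exact (Finsupp.mem_support_iff.1 hi) (hM i (not_lt.1 hcon))
  have hΘv : ∀ (v : ℕ →₀ ℝ) (M : ℕ), st_hd M v → Θ v = ∑ i ∈ range M, v i * θ i := by
    intro v M hM
    rw [hΘ, Finsupp.linearCombination_apply]
    refine Finsupp.sum_of_support_subset v ?_ _ (fun i _ => zero_smul ℝ (θ i))
    intro i hi
    rw [Finset.mem_range]
    by_contra hcon
    exact (Finsupp.mem_support_iff.1 hi) (hM i (not_lt.1 hcon))
  -- the block coefficients
  let cf : ℕ → (ℕ →₀ ℝ) := fun j => ∑ r ∈ range (2 * K),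
    Finsupp.single (φ (2 * K * j + r)) (σ r / (2 * K))
  let u : ℕ → (E →L[ℝ] ℝ) := fun j => T (cf j)
  have hσadd : ∀ j r, σ (2 * K * j + r) = σ r := by
    intro j r
    simp only [σ]
    rw [Nat.mul_add_mod]
  have hu_eq : ∀ j, u j = ∑ r ∈ range (2 * K), (σ r / (2 * K)) • w (φ (2 * K * j + r)) := by
    intro j
    simp only [u, cf]
    rw [map_sum]
    refine Finset.sum_congr rfl fun r _ => ?_
    rw [hTd, Finsupp.linearCombination_single]
  let Q : Set (ℕ →₀ ℝ) := {v | st_tl N v ∧ (∀ k, 0 ≤ θ k * v k) ∧ Θ v = 1}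
  have hQconv : Convex ℝ Q := by
    rintro v ⟨hv1, hv2, hv3⟩ v' ⟨hv1', hv2', hv3'⟩ a b ha hb hab
    refine ⟨?_, ?_, ?_⟩
    · intro i hi
      rw [Finsupp.add_apply, Finsupp.smul_apply, Finsupp.smul_apply, hv1 i hi, hv1' i hi,
        smul_zero, smul_zero, add_zero]
    · intro k
      rw [Finsupp.add_apply, Finsupp.smul_apply, Finsupp.smul_apply, smul_eq_mul, smul_eq_mul]
      have h1 := mul_nonneg ha (hv2 k)
      have h2 := mul_nonneg hb (hv2' k)
      nlinarith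
    · rw [map_add, map_smul, map_smul, hv3, hv3', smul_eq_mul, smul_eq_mul, mul_one, mul_one, hab]
  have hcfQ : ∀ j, cf j ∈ Q := by
    intro j
    refine ⟨?_, ?_, ?_⟩
    · intro i hi
      simp only [cf]
      rw [Finsupp.finsetSum_apply]
      refine Finset.sum_eq_zero fun r _ => ?_
      rw [Finsupp.single_apply, if_neg]
      have := (hφM (2 * K * j + r)).2
      omega
    · intro k
      simp only [cf]
      rw [Finsupp.finsetSum_apply, Finset.mul_sum]
      refine Finset.sum_nonneg fun r _ => ?_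
      rw [Finsupp.single_apply]
      split_ifs with h
      · rw [← h, hθφ, hσadd, ← mul_div_assoc, hσsq]
        positivity
      · simp
    · simp only [cf]
      rw [map_sum]
      have : ∀ r ∈ range (2 * K), Θ (Finsupp.single (φ (2 * K * j + r)) (σ r / (2 * K))) =
          1 / (2 * K) := by
        intro r _
        rw [hΘ, Finsupp.linearCombination_single, hθφ, hσadd, smul_eq_mul, div_mul_eq_mul_div, hσsq]
      rw [Finset.sum_congr rfl this, Finset.sum_const, Finset.card_range, nsmul_eq_mul]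
      push_cast
      field_simp
  have hQnorm : ∀ v ∈ Q, 1 - η ≤ ‖T v‖ := by
    rintro v ⟨hv1, hv2, hv3⟩
    obtain ⟨m, hm⟩ := st_exists_hd v
    have h1 := hN m (fun j => v j) (fun j hj => hv1 j hj)
    rw [hTv v m hm]
    have h2 : ∑ j ∈ range m, |v j| = 1 := by
      rw [← hv3, hΘv v m hm]
      refine Finset.sum_congr rfl fun j _ => ?_
      have h3 : |θ j * v j| = θ j * v j := abs_of_nonneg (hv2 j)
      rw [abs_mul, hθabs, one_mul] at h3
      rw [h3, mul_comm]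
    rw [h2, mul_one] at h1
    exact h1
  have hconv : ∀ z ∈ convexHull ℝ (Set.range u), 1 - η ≤ ‖z‖ := by
    have hsub : convexHull ℝ (Set.range u) ⊆ T '' Q := by
      refine convexHull_min ?_ (hQconv.linear_image T)
      rintro _ ⟨j, rfl⟩
      exact ⟨cf j, hcfQ j, rfl⟩
    intro z hz
    obtain ⟨v, hv, rfl⟩ := hsub hz
    exact hQnorm v hv
  have hunorm : ∀ j, ‖u j‖ ≤ 1 := by
    intro j
    rw [hu_eq]
    refine (norm_sum_le _ _).trans ?_
    have : ∀ r ∈ range (2 * K), ‖(σ r / (2 * K)) • w (φ (2 * K * j + r))‖ ≤ 1 / (2 * K) := by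
      intro r _
      rw [norm_smul, Real.norm_eq_abs, abs_div, hσabs, abs_of_pos (by positivity)]
      calc 1 / (2 * (K : ℝ)) * ‖w (φ (2 * K * j + r))‖ ≤ 1 / (2 * (K : ℝ)) * 1 :=
            mul_le_mul_of_nonneg_left (hw _) (by positivity)
        _ = _ := mul_one _
    refine (Finset.sum_le_sum this).trans ?_
    rw [Finset.sum_const, Finset.card_range, nsmul_eq_mul]
    push_cast
    apply le_of_eq
    field_simp
  obtain ⟨x, hx, hxN⟩ := simons hNA u hunorm (1 - η) hconv η hη0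
  -- the good indices
  set J : Set ℕ := {j | 1 - η - η ≤ u j x} with hJ
  have hJinf : J.Infinite := by
    rw [← Nat.frequently_atTop_iff_infinite, Filter.frequently_atTop]
    intro n
    obtain ⟨m, hm, h⟩ := hxN n
    exact ⟨m, hm, h⟩
  have hterm : ∀ j ∈ J, ∀ r < 2 * K, 1 / 2 ≤ σ r * w (φ (2 * K * j + r)) x := by
    intro j hj r hr
    have h1 : u j x = ∑ r ∈ range (2 * K), (1 / (2 * K)) * (σ r * w (φ (2 * K * j + r)) x) := by
      rw [hu_eq, _root_.sum_apply]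
      refine Finset.sum_congr rfl fun r _ => ?_
      change (σ r / (2 * K)) * w (φ (2 * K * j + r)) x = _
      ring
    have hle : ∀ r, σ r * w (φ (2 * K * j + r)) x ≤ 1 := by
      intro r
      calc σ r * w (φ (2 * K * j + r)) x ≤ |σ r * w (φ (2 * K * j + r)) x| := le_abs_self _
        _ = ‖w (φ (2 * K * j + r)) x‖ := by rw [abs_mul, hσabs, one_mul, Real.norm_eq_abs]
        _ ≤ ‖w (φ (2 * K * j + r))‖ * ‖x‖ := (w _).le_opNorm _
        _ ≤ 1 * 1 := mul_le_mul (hw _) hx (norm_nonneg _) zero_le_one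
        _ = 1 := one_mul _
    have h2 : ∑ r' ∈ range (2 * K), (1 / (2 * (K : ℝ))) * (1 - σ r' * w (φ (2 * K * j + r')) x) =
        1 - u j x := by
      rw [h1]
      simp_rw [mul_sub, mul_one]
      rw [Finset.sum_sub_distrib, Finset.sum_const, Finset.card_range, nsmul_eq_mul]
      push_cast
      field_simp
    have h3 : (1 / (2 * (K : ℝ))) * (1 - σ r * w (φ (2 * K * j + r)) x) ≤ 1 - u j x := by
      rw [← h2]
      refine Finset.single_le_sum (f := fun r' => (1 / (2 * (K : ℝ))) *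
        (1 - σ r' * w (φ (2 * K * j + r')) x)) (fun r' _ => ?_) (Finset.mem_range.2 hr)
      exact mul_nonneg (by positivity) (by linarith [hle r'])
    have h4 : 1 - u j x ≤ 2 * η := by
      have : 1 - η - η ≤ u j x := hj
      linarith
    have h5 : (1 - σ r * w (φ (2 * K * j + r)) x) ≤ 1 / 2 := by
      have h6 : (1 / (2 * (K : ℝ))) * (1 - σ r * w (φ (2 * K * j + r)) x) ≤ 2 * η := h3.trans h4
      have h7 := mul_le_mul_of_nonneg_left h6 (show (0 : ℝ) ≤ 2 * K by positivity)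
      have h8 : 2 * (K : ℝ) * ((1 / (2 * (K : ℝ))) * (1 - σ r * w (φ (2 * K * j + r)) x)) =
          1 - σ r * w (φ (2 * K * j + r)) x := by field_simp
      have h9 : 2 * (K : ℝ) * (2 * η) = 1 / 2 := by rw [hη]; field_simp; norm_num
      rw [h8, h9] at h7
      exact h7
    linarith
  refine ⟨x, fun i => {k | ∃ j ∈ J, k = φ (2 * K * j + i % (2 * K))}, hx, fun i => ?_,
    fun i hi => ⟨?_, ?_⟩, fun i hi => ⟨?_, ?_⟩⟩
  · have hinj : Set.InjOn (fun j => φ (2 * K * j + i % (2 * K))) J := by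
      intro a _ b _ hab
      have h1 := hφ.injective hab
      have h2 : 2 * K * a = 2 * K * b := by omega
      exact Nat.eq_of_mul_eq_mul_left (by omega) h2
    refine (hJinf.image hinj).mono ?_
    rintro _ ⟨j, hj, rfl⟩
    exact ⟨j, hj, rfl⟩
  · rintro _ ⟨j, _, rfl⟩
    have h1 := (hφM (2 * K * j + i % (2 * K))).1
    have h2 : (2 * K * j + i % (2 * K)) % K = i := by
      rw [Nat.mod_eq_of_lt (show i < 2 * K by omega), show 2 * K * j + i = K * (2 * j) + i by ring,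
        Nat.mul_add_mod, Nat.mod_eq_of_lt hi]
    rw [h2] at h1
    exact h1
  · rintro _ ⟨j, hj, rfl⟩
    have hi' : i % (2 * K) = i := Nat.mod_eq_of_lt (show i < 2 * K by omega)
    have h1 := hterm j hj (i % (2 * K)) (Nat.mod_lt _ (by omega))
    have h2 : σ (i % (2 * K)) = 1 := by
      simp only [σ]
      rw [if_pos (by rw [hi', hi']; exact hi)]
    rw [h2, one_mul] at h1
    exact h1
  · rintro _ ⟨j, _, rfl⟩
    have h1 := (hφM (2 * K * j + (K + i) % (2 * K))).1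
    have h2 : (2 * K * j + (K + i) % (2 * K)) % K = i := by
      rw [Nat.mod_eq_of_lt (show K + i < 2 * K by omega),
        show 2 * K * j + (K + i) = K * (2 * j + 1) + i by ring,
        Nat.mul_add_mod, Nat.mod_eq_of_lt hi]
    rw [h2] at h1
    exact h1
  · rintro _ ⟨j, hj, rfl⟩
    have hi' : (K + i) % (2 * K) = K + i := Nat.mod_eq_of_lt (show K + i < 2 * K by omega)
    have h1 := hterm j hj ((K + i) % (2 * K)) (Nat.mod_lt _ (by omega))
    have h2 : σ ((K + i) % (2 * K)) = -1 := by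
      simp only [σ]
      rw [if_neg (by rw [hi', hi']; omega)]
    rw [h2] at h1
    linarith

/-- The dyadic tree: a sequence in the unit ball on which the functionals realise all sign
patterns. -/
theorem tree (hNA : ∀ f : E →L[ℝ] ℝ, ∃ x : E, ‖x‖ ≤ 1 ∧ f x = ‖f‖)
    (w : ℕ → (E →L[ℝ] ℝ)) (hw : ∀ n, ‖w n‖ ≤ 1)
    (hT : ∀ η : ℝ, 0 < η → ∃ N : ℕ, ∀ (n : ℕ) (a : ℕ → ℝ), (∀ j < N, a j = 0) →
        (1 - η) * ∑ j ∈ range n, |a j| ≤ ‖∑ j ∈ range n, a j • w j‖) :
    ∃ x : ℕ → E, (∀ n, ‖x n‖ ≤ 1) ∧ ∀ (m : ℕ) (F : Set ℕ), ∃ k : ℕ, ∀ l < m,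
      (l ∈ F → 1 / 2 ≤ w k (x l)) ∧ (l ∉ F → w k (x l) ≤ -(1 / 2)) := by
  classical
  let St := {q : ℕ × (ℕ → Set ℕ) // 0 < q.1 ∧ ∀ i, (q.2 i).Infinite}
  have step : ∀ q : St, ∃ (x : E) (q' : St), ‖x‖ ≤ 1 ∧ q'.1.1 = 2 * q.1.1 ∧
      (∀ i < q.1.1, q'.1.2 i ⊆ q.1.2 i ∧ ∀ k ∈ q'.1.2 i, 1 / 2 ≤ w k x) ∧
      (∀ i < q.1.1, q'.1.2 (q.1.1 + i) ⊆ q.1.2 i ∧
        ∀ k ∈ q'.1.2 (q.1.1 + i), w k x ≤ -(1 / 2)) := by
    rintro ⟨⟨K, M⟩, hK, hM⟩
    obtain ⟨x, M', h1, h2, h3, h4⟩ := split hNA w hw hT K hK M hM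
    exact ⟨x, ⟨(2 * K, M'), by simp only; omega, h2⟩, h1, rfl, h3, h4⟩
  choose X nx h1 h2 h3 h4 using step
  let seq : ℕ → St := fun j => Nat.rec ⟨(1, fun _ => Set.univ), one_pos,
    fun _ => Set.infinite_univ⟩ (fun _ q => nx q) j
  have hseq : ∀ j, seq (j + 1) = nx (seq j) := fun j => rfl
  refine ⟨fun j => X (seq j), fun j => h1 _, fun m F => ?_⟩
  have key : ∀ m : ℕ, ∃ i < (seq m).1.1, ∀ k ∈ (seq m).1.2 i, ∀ l < m,
      (l ∈ F → 1 / 2 ≤ w k (X (seq l))) ∧ (l ∉ F → w k (X (seq l)) ≤ -(1 / 2)) := by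
    intro m
    induction m with
    | zero => exact ⟨0, (seq 0).2.1, fun k _ l hl => absurd hl (Nat.not_lt_zero l)⟩
    | succ m ih =>
      obtain ⟨i, hi, hk⟩ := ih
      by_cases hmF : m ∈ F
      · refine ⟨i, ?_, fun k hk' l hl => ?_⟩
        · rw [hseq, h2]; omega
        · rw [hseq] at hk'
          rcases Nat.lt_succ_iff_lt_or_eq.1 hl with h | rfl
          · exact hk k ((h3 (seq m) i hi).1 hk') l h
          · exact ⟨fun _ => (h3 (seq l) i hi).2 k hk', fun h => absurd hmF h⟩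
      · refine ⟨(seq m).1.1 + i, ?_, fun k hk' l hl => ?_⟩
        · rw [hseq, h2]; omega
        · rw [hseq] at hk'
          rcases Nat.lt_succ_iff_lt_or_eq.1 hl with h | rfl
          · exact hk k ((h4 (seq m) i hi).1 hk') l h
          · exact ⟨fun h => absurd h hmF, fun _ => (h4 (seq l) i hi).2 k hk'⟩
  obtain ⟨i, hi, hk⟩ := key m
  obtain ⟨k, hk'⟩ := ((seq m).2.2 i).nonempty
  exact ⟨k, hk k hk'⟩

end split

end Pool.Agent.P8H75.JN
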