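import Mathlib
import Pool.Agent.P8H75.JN3

/-!
The Josefson-Nissenzweig theorem for spaces all of whose functionals attain their norm: if such a
real normed space is infinite-dimensional, then there is a sequence of norm one functionals which
tends to zero pointwise.
-/

set_option autoImplicit false

open Filter Topology Finset

namespace Pool.Agent.P8H75.JN

/-- Rademacher functions on the finite subsets of `ℕ`. -/
noncomputable def rad (n : ℕ) (F : Finset ℕ) : ℝ := if n ∈ F then 1 else -1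

theorem rad_sq (n : ℕ) (F : Finset ℕ) : rad n F * rad n F = 1 := by
  unfold rad; split_ifs <;> norm_num

theorem rad_abs (n : ℕ) (F : Finset ℕ) : |rad n F| = 1 := by
  unfold rad; split_ifs <;> simp

/-- Bessel's inequality for the Rademacher functions. -/
theorem bessel (m : ℕ) : ∀ g : Finset ℕ → ℝ,
    ∑ n ∈ range m, ((2 ^ m : ℝ)⁻¹ * ∑ F ∈ (range m).powerset, rad n F * g F) ^ 2 ≤
      (2 ^ m : ℝ)⁻¹ * ∑ F ∈ (range m).powerset, g F ^ 2 := by
  induction m with
  | zero => intro g; simp [sq_nonneg]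
  | succ m ih =>
    intro g
    have hm : m ∉ range m := by simp
    have hnot : ∀ F ∈ (range m).powerset, m ∉ F := fun F hF hmF =>
      hm (Finset.mem_powerset.1 hF hmF)
    set h : Finset ℕ → ℝ := fun F => (g F + g (insert m F)) / 2 with hh
    set d : Finset ℕ → ℝ := fun F => (g (insert m F) - g F) / 2 with hd
    have h2 : ((2 : ℝ) ^ (m + 1))⁻¹ = (2 ^ m : ℝ)⁻¹ / 2 := by rw [pow_succ]; field_simp
    have e1 : ∀ n ∈ range m, (2 ^ (m + 1) : ℝ)⁻¹ *
        ∑ F ∈ (range (m + 1)).powerset, rad n F * g F =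
        (2 ^ m : ℝ)⁻¹ * ∑ F ∈ (range m).powerset, rad n F * h F := by
      intro n hn
      have hnm : n ≠ m := by
        have := Finset.mem_range.1 hn
        omega
      rw [Finset.range_add_one, Finset.sum_powerset_insert hm, ← Finset.sum_add_distrib, h2,
        div_mul_eq_mul_div, mul_div_assoc, Finset.sum_div]
      congr 1
      refine Finset.sum_congr rfl fun F _ => ?_
      have : rad n (insert m F) = rad n F := by
        unfold rad
        simp [hnm]
      rw [this, hh]
      ring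
    have e2 : (2 ^ (m + 1) : ℝ)⁻¹ * ∑ F ∈ (range (m + 1)).powerset, rad m F * g F =
        (2 ^ m : ℝ)⁻¹ * ∑ F ∈ (range m).powerset, d F := by
      rw [Finset.range_add_one, Finset.sum_powerset_insert hm, ← Finset.sum_add_distrib, h2,
        div_mul_eq_mul_div, mul_div_assoc, Finset.sum_div]
      congr 1
      refine Finset.sum_congr rfl fun F hF => ?_
      have h3 : rad m F = -1 := by
        unfold rad
        rw [if_neg (hnot F hF)]
      have h4 : rad m (insert m F) = 1 := by
        unfold rad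
        rw [if_pos (Finset.mem_insert_self m F)]
      rw [h3, h4, hd]
      ring
    have e3 : (2 ^ (m + 1) : ℝ)⁻¹ * ∑ F ∈ (range (m + 1)).powerset, g F ^ 2 =
        (2 ^ m : ℝ)⁻¹ * ∑ F ∈ (range m).powerset, h F ^ 2 +
          (2 ^ m : ℝ)⁻¹ * ∑ F ∈ (range m).powerset, d F ^ 2 := by
      rw [Finset.range_add_one, Finset.sum_powerset_insert hm, ← Finset.sum_add_distrib, h2,
        div_mul_eq_mul_div, mul_div_assoc, Finset.sum_div, ← mul_add, ← Finset.sum_add_distrib]
      congr 1
      refine Finset.sum_congr rfl fun F _ => ?_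
      rw [hh, hd]
      ring
    have e4 : ((2 ^ m : ℝ)⁻¹ * ∑ F ∈ (range m).powerset, d F) ^ 2 ≤
        (2 ^ m : ℝ)⁻¹ * ∑ F ∈ (range m).powerset, d F ^ 2 := by
      have h5 := sq_sum_le_card_mul_sum_sq (s := (range m).powerset) (f := d)
      rw [Finset.card_powerset, Finset.card_range] at h5
      push_cast at h5
      have h6 : (0 : ℝ) < 2 ^ m := by positivity
      rw [mul_pow]
      calc ((2 : ℝ) ^ m)⁻¹ ^ 2 * (∑ F ∈ (range m).powerset, d F) ^ 2
          ≤ ((2 : ℝ) ^ m)⁻¹ ^ 2 * (2 ^ m * ∑ F ∈ (range m).powerset, d F ^ 2) :=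
            mul_le_mul_of_nonneg_left h5 (by positivity)
        _ = _ := by field_simp
    rw [Finset.sum_range_succ, Finset.sum_congr rfl (fun n hn => by rw [e1 n hn]), e2, e3]
    exact add_le_add (ih h) e4

section

variable {E : Type*} [NormedAddCommGroup E] [NormedSpace ℝ E]

/-- ultrafilter limits of bounded sequences of functionals -/
theorem ultralimit (U : Ultrafilter ℕ) (g : ℕ → (E →L[ℝ] ℝ)) (R : ℝ) (hg : ∀ n, ‖g n‖ ≤ R) :
    ∃ G : E →L[ℝ] ℝ, ∀ w, Tendsto (fun n => g n w) U (𝓝 (G w)) := by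
  have hK := WeakDual.isCompact_closedBall (𝕜 := ℝ) (E := E) 0 R
  have h1 : ∀ n, StrongDual.toWeakDual (g n) ∈
      (WeakDual.toStrongDual ⁻¹' Metric.closedBall (0 : StrongDual ℝ E) R) := by
    intro n
    simpa using hg n
  have h2 := (isCompact_iff_ultrafilter_le_nhds.1 hK)
    (U.map (fun n => StrongDual.toWeakDual (g n))) (by
    rw [le_principal_iff]
    exact Filter.mem_map.2 (Filter.Eventually.of_forall h1))
  obtain ⟨G, -, hG⟩ := h2
  refine ⟨WeakDual.toStrongDual G, fun w => ?_⟩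
  have h3 : Tendsto (fun n => StrongDual.toWeakDual (g n)) U (𝓝 G) := hG
  have h4 := ((WeakDual.eval_continuous w).tendsto G).comp h3
  exact h4

/-- Averaging: a dyadic tree of functionals yields a pointwise null sequence of functionals. -/
theorem averaging (w : ℕ → (E →L[ℝ] ℝ)) (hw : ∀ n, ‖w n‖ ≤ 1) (x : ℕ → E)
    (htree : ∀ (m : ℕ) (F : Set ℕ), ∃ k : ℕ, ∀ l < m,
      (l ∈ F → 1 / 2 ≤ w k (x l)) ∧ (l ∉ F → w k (x l) ≤ -(1 / 2))) :
    ∃ v : ℕ → (E →L[ℝ] ℝ), (∀ n, 1 / 2 ≤ v n (x n)) ∧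
      ∀ y, Tendsto (fun n => v n y) atTop (𝓝 0) := by
  classical
  choose k hk using fun (m : ℕ) (F : Finset ℕ) => htree m (F : Set ℕ)
  let V : ℕ → ℕ → (E →L[ℝ] ℝ) := fun n m =>
    (2 ^ m : ℝ)⁻¹ • ∑ F ∈ (range m).powerset, rad n F • w (k m F)
  have hVapp : ∀ n m y, V n m y = (2 ^ m : ℝ)⁻¹ * ∑ F ∈ (range m).powerset,
      rad n F * w (k m F) y := by
    intro n m y
    simp only [V]
    rw [_root_.smul_apply, _root_.sum_apply]
    rfl
  have hcard : ∀ m : ℕ, ∑ _F ∈ (range m).powerset, (1 : ℝ) = 2 ^ m := by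
    intro m
    rw [Finset.sum_const, Finset.card_powerset, Finset.card_range]
    simp
  have hVnorm : ∀ n m, ‖V n m‖ ≤ 1 := by
    intro n m
    simp only [V]
    rw [norm_smul, norm_inv, norm_pow, Real.norm_ofNat, inv_mul_le_iff₀ (by positivity), mul_one]
    refine (norm_sum_le _ _).trans ?_
    rw [← hcard m]
    refine Finset.sum_le_sum fun F _ => ?_
    rw [norm_smul, Real.norm_eq_abs, rad_abs, one_mul]
    exact hw _
  let U : Ultrafilter ℕ := hyperfilter ℕ
  have hU : (U : Filter ℕ) ≤ atTop := Nat.hyperfilter_le_atTop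
  choose v hv using fun n => ultralimit U (V n) 1 (hVnorm n)
  refine ⟨v, fun n => ?_, fun y => ?_⟩
  · refine ge_of_tendsto (hv n (x n)) (hU ?_)
    filter_upwards [eventually_gt_atTop n] with m hm
    rw [hVapp, ← div_eq_inv_mul, le_div_iff₀ (by positivity), ← hcard m, Finset.mul_sum]
    refine Finset.sum_le_sum fun F _ => ?_
    have h1 := hk m F n hm
    unfold rad
    split_ifs with h
    · have := h1.1 (by exact_mod_cast h)
      linarith
    · have := h1.2 (by exact_mod_cast h)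
      linarith
  · have hsq : ∀ M : ℕ, ∑ n ∈ range M, (v n y) ^ 2 ≤ ‖y‖ ^ 2 := by
      intro M
      have ht : Tendsto (fun m => ∑ n ∈ range M, (V n m y) ^ 2) U
          (𝓝 (∑ n ∈ range M, (v n y) ^ 2)) :=
        tendsto_finsetSum _ fun n _ => (hv n y).pow 2
      refine le_of_tendsto ht (hU ?_)
      filter_upwards [eventually_ge_atTop M] with m hm
      calc ∑ n ∈ range M, (V n m y) ^ 2 ≤ ∑ n ∈ range m, (V n m y) ^ 2 :=
            Finset.sum_le_sum_of_subset_of_nonneg (Finset.range_subset_range.2 hm)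
              fun _ _ _ => sq_nonneg _
        _ = ∑ n ∈ range m, ((2 ^ m : ℝ)⁻¹ * ∑ F ∈ (range m).powerset,
              rad n F * w (k m F) y) ^ 2 := Finset.sum_congr rfl fun n _ => by rw [hVapp]
        _ ≤ (2 ^ m : ℝ)⁻¹ * ∑ F ∈ (range m).powerset, (w (k m F) y) ^ 2 :=
            bessel m fun F => w (k m F) y
        _ ≤ (2 ^ m : ℝ)⁻¹ * ∑ _F ∈ (range m).powerset, ‖y‖ ^ 2 := by
            refine mul_le_mul_of_nonneg_left (Finset.sum_le_sum fun F _ => ?_) (by positivity)
            rw [← sq_abs, ← Real.norm_eq_abs]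
            refine pow_le_pow_left₀ (norm_nonneg _) ?_ 2
            calc ‖w (k m F) y‖ ≤ ‖w (k m F)‖ * ‖y‖ := (w _).le_opNorm _
              _ ≤ 1 * ‖y‖ := mul_le_mul_of_nonneg_right (hw _) (norm_nonneg _)
              _ = ‖y‖ := one_mul _
        _ = ‖y‖ ^ 2 := by
            rw [Finset.sum_const, Finset.card_powerset, Finset.card_range, nsmul_eq_mul]
            push_cast
            field_simp
    have hsum : Summable fun n => (v n y) ^ 2 :=
      summable_of_sum_range_le (fun n => sq_nonneg _) hsq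
    have h0 := hsum.tendsto_atTop_zero
    rw [tendsto_zero_iff_abs_tendsto_zero]
    have h1 : Tendsto (fun n => Real.sqrt ((v n y) ^ 2)) atTop (𝓝 (Real.sqrt 0)) :=
      (Real.continuous_sqrt.tendsto 0).comp h0
    rw [Real.sqrt_zero] at h1
    refine h1.congr fun n => ?_
    rw [Real.sqrt_sq_eq_abs]
    rfl

/-- the dual of an infinite-dimensional space is infinite-dimensional -/
theorem dual_infinite (hE : ¬ FiniteDimensional ℝ E) : ¬ FiniteDimensional ℝ (E →L[ℝ] ℝ) := by
  intro h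
  apply hE
  let J : E →ₗ[ℝ] Module.Dual ℝ (E →L[ℝ] ℝ) :=
    { toFun := fun x => { toFun := fun f => f x, map_add' := fun _ _ => rfl,
                          map_smul' := fun _ _ => rfl }
      map_add' := fun x y => by
        apply LinearMap.ext
        intro f
        exact map_add f x y
      map_smul' := fun c x => by
        apply LinearMap.ext
        intro f
        exact map_smul f c x }
  have hJ : Function.Injective J := by
    rw [← LinearMap.ker_eq_bot, LinearMap.ker_eq_bot']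
    intro x hx
    apply NormedSpace.eq_zero_of_forall_dual_eq_zero ℝ
    intro f
    exact LinearMap.congr_fun hx f
  exact FiniteDimensional.of_injective J hJ

/-- Normalisation of a pointwise null sequence which is bounded below in norm. -/
theorem normalise (v : ℕ → (E →L[ℝ] ℝ)) (c : ℝ) (hc : 0 < c) (hv : ∀ n, c ≤ ‖v n‖)
    (h0 : ∀ y, Tendsto (fun n => v n y) atTop (𝓝 0)) :
    ∃ u : ℕ → (E →L[ℝ] ℝ), (∀ n, ‖u n‖ = 1) ∧ ∀ y, Tendsto (fun n => u n y) atTop (𝓝 0) := by
  have hpos : ∀ n, 0 < ‖v n‖ := fun n => hc.trans_le (hv n)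
  refine ⟨fun n => ‖v n‖⁻¹ • v n, fun n => ?_, fun y => ?_⟩
  · rw [norm_smul, norm_inv, norm_norm, inv_mul_cancel₀ (hpos n).ne']
  · have h1 : Tendsto (fun n => c⁻¹ * |v n y|) atTop (𝓝 0) := by
      have := ((h0 y).abs).const_mul c⁻¹
      simpa using this
    refine squeeze_zero_norm (fun n => ?_) h1
    change ‖‖v n‖⁻¹ * v n y‖ ≤ _
    rw [norm_mul, norm_inv, norm_norm, Real.norm_eq_abs]
    exact mul_le_mul_of_nonneg_right (inv_anti₀ hc (hv n)) (abs_nonneg _)

/-- **Josefson-Nissenzweig theorem** for a space all of whose functionals attain their norm. -/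
theorem exists_null (hE : ¬ FiniteDimensional ℝ E)
    (hNA : ∀ f : E →L[ℝ] ℝ, ∃ x : E, ‖x‖ ≤ 1 ∧ f x = ‖f‖) :
    ∃ u : ℕ → (E →L[ℝ] ℝ), (∀ n, ‖u n‖ = 1) ∧ ∀ y, Tendsto (fun n => u n y) atTop (𝓝 0) := by
  have hD := dual_infinite hE
  obtain ⟨v, hv1, hv2⟩ := exists_seq_norm_le_one_le_norm_sub' (𝕜 := ℝ) (c := (2 : ℝ))
    (by norm_num) (R := 3) (by norm_num) hD
  rcases dichotomy v 3 hv1 with ⟨φ, hφ, hconv⟩ | ⟨φ, hφ, c, hc, hlow⟩
  · refine normalise (fun n => v (φ (2 * n)) - v (φ (2 * n + 1))) 1 one_pos (fun n => ?_)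
      (fun y => ?_)
    · refine hv2 ?_
      intro h
      have := hφ.injective h
      omega
    · obtain ⟨c, hc⟩ := hconv y
      have h1 : Tendsto (fun n : ℕ => 2 * n) atTop atTop :=
        Filter.tendsto_atTop_mono (fun n => by simp only [id]; omega) tendsto_id
      have h2 : Tendsto (fun n : ℕ => 2 * n + 1) atTop atTop :=
        Filter.tendsto_atTop_mono (fun n => by simp only [id]; omega) tendsto_id
      have h3 := (hc.comp h1).sub (hc.comp h2)
      rw [sub_self] at h3
      exact h3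
  · obtain ⟨w, hw1, hw2⟩ := james_l1 (fun j => v (φ j)) c 3 hc (fun n => hv1 _) hlow
    obtain ⟨x, hx1, hx2⟩ := tree hNA w hw1 hw2
    obtain ⟨z, hz1, hz2⟩ := averaging w hw1 x hx2
    refine normalise z (1 / 2) (by norm_num) (fun n => ?_) hz2
    calc 1 / 2 ≤ z n (x n) := hz1 n
      _ ≤ ‖z n (x n)‖ := Real.le_norm_self _
      _ ≤ ‖z n‖ * ‖x n‖ := (z n).le_opNorm _
      _ ≤ ‖z n‖ * 1 := mul_le_mul_of_nonneg_left (hx1 n) (norm_nonneg _)
      _ = ‖z n‖ := mul_one _

end

end Pool.Agent.P8H75.JN
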