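import Mathlib
import Pool.Agent.P8H75.JN4

/-!
The weak maximizing property with range `ℓ_∞` forces the domain to be finite-dimensional.
-/

set_option autoImplicit false

open Filter Topology Finset
open scoped ENNReal

namespace Pool.Agent.P8H75.JN

section defs

variable (𝕜 : Type*) [RCLike 𝕜] {E F : Type*} [NormedAddCommGroup E] [NormedSpace 𝕜 E]
  [NormedAddCommGroup F] [NormedSpace 𝕜 F]

/-- `x` converges weakly to `0`. -/
def WeaklyNull (x : ℕ → E) : Prop :=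
  ∀ f : E →L[𝕜] 𝕜, Tendsto (fun n => f (x n)) atTop (𝓝 0)

variable {𝕜}

/-- `x` is a maximizing sequence for `T`: it lies in the unit sphere and `‖T (x n)‖ → ‖T‖`. -/
def MaximizingSeq (T : E →L[𝕜] F) (x : ℕ → E) : Prop :=
  (∀ n, ‖x n‖ = 1) ∧ Tendsto (fun n => ‖T (x n)‖) atTop (𝓝 ‖T‖)

/-- `T` attains its norm: `‖T x‖ = ‖T‖` for some `x` in the unit sphere. -/
def AttainsNorm (T : E →L[𝕜] F) : Prop := ∃ x : E, ‖x‖ = 1 ∧ ‖T x‖ = ‖T‖

variable (𝕜 E F)

/-- The weak maximizing property of the pair `(E, F)`: every operator from `E` to `F` that has a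
non-weakly null maximizing sequence attains its norm. -/
def WMP : Prop :=
  ∀ T : E →L[𝕜] F, (∃ x : ℕ → E, MaximizingSeq T x ∧ ¬ WeaklyNull 𝕜 x) → AttainsNorm T

end defs

section

variable {𝕜 : Type*} [RCLike 𝕜] {E : Type*} [NormedAddCommGroup E] [NormedSpace 𝕜 E]

/-- unit vectors almost attaining the norm -/
theorem exists_unit {f : E →L[𝕜] 𝕜} {r : ℝ} (hr0 : 0 ≤ r) (hr : r < ‖f‖) :
    ∃ x : E, ‖x‖ = 1 ∧ r < ‖f x‖ := by
  obtain ⟨x, hx1, hx2⟩ := f.exists_lt_apply_of_lt_opNorm hr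
  have hx0 : x ≠ 0 := by
    rintro rfl
    simp at hx2
    linarith
  have hxn : 0 < ‖x‖ := norm_pos_iff.2 hx0
  refine ⟨((‖x‖⁻¹ : ℝ) : 𝕜) • x, ?_, ?_⟩
  · rw [norm_smul, RCLike.norm_ofReal, abs_of_pos (inv_pos.2 hxn), inv_mul_cancel₀ hxn.ne']
  · rw [map_smul, norm_smul, RCLike.norm_ofReal, abs_of_pos (inv_pos.2 hxn)]
    refine hx2.trans_le ?_
    have h1 : 1 ≤ ‖x‖⁻¹ := (one_le_inv₀ hxn).2 hx1.le
    nlinarith [norm_nonneg (f x)]

/-- The operator into `ℓ_∞` given by a sequence of functionals in the unit ball. -/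
noncomputable def opSeq (g : ℕ → (E →L[𝕜] 𝕜)) (hg : ∀ n, ‖g n‖ ≤ 1) :
    E →L[𝕜] lp (fun _ : ℕ => 𝕜) ∞ :=
  LinearMap.mkContinuous
    { toFun := fun x => ⟨fun n => g n x, by
        apply memℓp_infty
        refine ⟨‖x‖, ?_⟩
        rintro _ ⟨n, rfl⟩
        exact ((g n).le_opNorm x).trans (mul_le_of_le_one_left (norm_nonneg _) (hg n))⟩
      map_add' := fun x y => by
        ext n
        exact map_add (g n) x y
      map_smul' := fun c x => by
        ext n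
        exact map_smul (g n) c x } 1 (by
      intro x
      rw [one_mul]
      refine lp.norm_le_of_forall_le (norm_nonneg x) fun n => ?_
      exact ((g n).le_opNorm x).trans (mul_le_of_le_one_left (norm_nonneg _) (hg n)))

theorem opSeq_apply (g : ℕ → (E →L[𝕜] 𝕜)) (hg : ∀ n, ‖g n‖ ≤ 1) (x : E) (n : ℕ) :
    opSeq g hg x n = g n x := rfl

theorem opSeq_norm_le (g : ℕ → (E →L[𝕜] 𝕜)) (hg : ∀ n, ‖g n‖ ≤ 1) : ‖opSeq g hg‖ ≤ 1 :=
  LinearMap.mkContinuous_norm_le _ zero_le_one _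

/-- Sequential consequence of the weak maximizing property. -/
theorem wmp_seq (hW : WMP 𝕜 E (lp (fun _ : ℕ => 𝕜) ∞)) (g : ℕ → (E →L[𝕜] 𝕜))
    (hg : ∀ n, ‖g n‖ ≤ 1) (x : ℕ → E) (hx : ∀ k, ‖x k‖ = 1)
    (hlim : Tendsto (fun k => ‖g k (x k)‖) atTop (𝓝 1)) (hnw : ¬ WeaklyNull 𝕜 x) :
    ∃ y : E, ‖y‖ = 1 ∧ ∀ δ > 0, ∃ n, 1 - δ < ‖g n y‖ := by
  have hlow : ∀ k, ‖g k (x k)‖ ≤ ‖opSeq g hg (x k)‖ := fun k =>
    lp.norm_apply_le_norm (by simp) (opSeq g hg (x k)) k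
  have hup : ∀ k, ‖opSeq g hg (x k)‖ ≤ 1 := fun k => by
    refine ((opSeq g hg).le_opNorm (x k)).trans ?_
    rw [hx, mul_one]
    exact opSeq_norm_le g hg
  have hlimT : Tendsto (fun k => ‖opSeq g hg (x k)‖) atTop (𝓝 1) :=
    tendsto_of_tendsto_of_tendsto_of_le_of_le hlim tendsto_const_nhds hlow hup
  have hnorm : ‖opSeq g hg‖ = 1 := by
    refine le_antisymm (opSeq_norm_le g hg) ?_
    refine le_of_tendsto hlimT (Eventually.of_forall fun k => ?_)
    refine ((opSeq g hg).le_opNorm (x k)).trans ?_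
    rw [hx, mul_one]
  obtain ⟨y, hy1, hy2⟩ := hW (opSeq g hg) ⟨x, ⟨hx, by rw [hnorm]; exact hlimT⟩, hnw⟩
  refine ⟨y, hy1, fun δ hδ => ?_⟩
  rw [hnorm] at hy2
  by_contra hcon
  push Not at hcon
  have h1 : ‖opSeq g hg y‖ ≤ 1 - δ := by
    have h0 : 0 ≤ 1 - δ := (norm_nonneg _).trans (hcon 0)
    exact lp.norm_le_of_forall_le h0 fun n => hcon n
  linarith

/-- Under the weak maximizing property every functional of norm one attains its norm. -/
theorem wmp_attains (hW : WMP 𝕜 E (lp (fun _ : ℕ => 𝕜) ∞)) (f : E →L[𝕜] 𝕜) (hf : ‖f‖ = 1) :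
    ∃ y : E, ‖y‖ = 1 ∧ ‖f y‖ = 1 := by
  have hex : ∀ k : ℕ, ∃ x : E, ‖x‖ = 1 ∧ 1 - 1 / ((k : ℝ) + 1) < ‖f x‖ := fun k => by
    refine exists_unit ?_ ?_
    · have : 1 / ((k : ℝ) + 1) ≤ 1 := by
        rw [div_le_one (by positivity)]
        linarith [(Nat.cast_nonneg k : (0 : ℝ) ≤ k)]
      linarith
    · rw [hf]
      have : 0 < 1 / ((k : ℝ) + 1) := by positivity
      linarith
  choose x hx1 hx2 using hex
  have hlim : Tendsto (fun k => ‖f (x k)‖) atTop (𝓝 1) := by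
    have h1 : Tendsto (fun k : ℕ => 1 - 1 / ((k : ℝ) + 1)) atTop (𝓝 1) := by
      have := (tendsto_one_div_add_atTop_nhds_zero_nat (𝕜 := ℝ)).const_sub 1
      simpa using this
    refine tendsto_of_tendsto_of_tendsto_of_le_of_le h1 tendsto_const_nhds
      (fun k => (hx2 k).le) fun k => ?_
    refine (f.le_opNorm (x k)).trans ?_
    rw [hx1, hf, mul_one]
  have hnw : ¬ WeaklyNull 𝕜 x := by
    intro h
    have h1 := (h f).norm
    rw [norm_zero] at h1
    exact zero_ne_one (tendsto_nhds_unique h1 hlim)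
  obtain ⟨y, hy1, hy2⟩ := wmp_seq hW (fun _ => f) (fun _ => hf.le) x hx1 hlim hnw
  refine ⟨y, hy1, le_antisymm ?_ ?_⟩
  · refine (f.le_opNorm y).trans ?_
    rw [hy1, hf, mul_one]
  · by_contra hlt
    push Not at hlt
    obtain ⟨_, hn⟩ := hy2 (1 - ‖f y‖) (by linarith)
    linarith

/-- **Key lemma.** Under the weak maximizing property, adding a small weak* null sequence does
not enlarge the norm of a functional beyond the maximum of the two norms. -/
theorem key (hW : WMP 𝕜 E (lp (fun _ : ℕ => 𝕜) ∞)) (f : E →L[𝕜] 𝕜) (u : ℕ → (E →L[𝕜] 𝕜))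
    (r s : ℝ) (hf : ‖f‖ < r) (hs : s < r) (hu : ∀ n, ‖u n‖ ≤ s)
    (h0 : ∀ y, Tendsto (fun n => u n y) atTop (𝓝 0)) :
    ∀ᶠ n in atTop, ‖f + u n‖ < r := by
  by_contra hcon
  rw [not_eventually] at hcon
  obtain ⟨φ, hφ, hφr⟩ := extraction_of_frequently_atTop hcon
  have hr : 0 < r := (norm_nonneg f).trans_lt hf
  have hρ : ∀ n, r ≤ ‖f + u (φ n)‖ := fun n => not_lt.1 (hφr n)
  have hρ0 : ∀ n, 0 < ‖f + u (φ n)‖ := fun n => hr.trans_le (hρ n)
  set β : ℕ → ℝ := fun n => 1 - 1 / ((n : ℝ) + 2) with hβ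
  have hβ0 : ∀ n, 0 < β n := fun n => by
    have : 1 / ((n : ℝ) + 2) < 1 := by
      rw [div_lt_one (by positivity)]
      linarith [(Nat.cast_nonneg n : (0 : ℝ) ≤ n)]
    simp only [hβ]; linarith
  have hβ1 : ∀ n, β n < 1 := fun n => by
    have : 0 < 1 / ((n : ℝ) + 2) := by positivity
    simp only [hβ]; linarith
  have hβm : ∀ m n, m ≤ n → β m ≤ β n := fun m n hmn => by
    have h1 : (m : ℝ) ≤ n := by exact_mod_cast hmn
    have : 1 / ((n : ℝ) + 2) ≤ 1 / ((m : ℝ) + 2) :=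
      one_div_le_one_div_of_le (by positivity) (by linarith)
    simp only [hβ]; linarith
  have hβl : Tendsto β atTop (𝓝 1) := by
    have h1 := ((tendsto_one_div_add_atTop_nhds_zero_nat (𝕜 := ℝ)).comp
      (tendsto_add_atTop_nat 1)).const_sub 1
    rw [sub_zero] at h1
    refine h1.congr fun n => ?_
    simp only [hβ, Function.comp]
    push_cast
    ring_nf
  set G : ℕ → (E →L[𝕜] 𝕜) := fun n =>
    ((β n / ‖f + u (φ n)‖ : ℝ) : 𝕜) • (f + u (φ n)) with hG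
  have hcoef : ∀ n, 0 < β n / ‖f + u (φ n)‖ := fun n => div_pos (hβ0 n) (hρ0 n)
  have hGn : ∀ n, ‖G n‖ = β n := fun n => by
    simp only [hG]
    rw [norm_smul, RCLike.norm_ofReal, abs_of_pos (hcoef n), div_mul_cancel₀ _ (hρ0 n).ne']
  have hGa : ∀ n y, ‖G n y‖ = β n / ‖f + u (φ n)‖ * ‖f y + u (φ n) y‖ := fun n y => by
    simp only [hG]
    rw [ContinuousLinearMap.smul_apply, norm_smul, RCLike.norm_ofReal, abs_of_pos (hcoef n),
      ContinuousLinearMap.add_apply]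
  have hcoefle : ∀ n, β n / ‖f + u (φ n)‖ ≤ 1 / r := fun n =>
    div_le_div₀ zero_le_one (hβ1 n).le hr (hρ n)
  have hex : ∀ k : ℕ, ∃ x : E, ‖x‖ = 1 ∧ β k - β k / ((k : ℝ) + 1) < ‖G k x‖ := fun k => by
    refine exists_unit ?_ ?_
    · have : β k / ((k : ℝ) + 1) ≤ β k := by
        refine div_le_self (hβ0 k).le ?_
        linarith [(Nat.cast_nonneg k : (0 : ℝ) ≤ k)]
      linarith
    · rw [hGn]
      have : 0 < β k / ((k : ℝ) + 1) := div_pos (hβ0 k) (by positivity)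
      linarith
  choose x hx1 hx2 using hex
  have hlim : Tendsto (fun k => ‖G k (x k)‖) atTop (𝓝 1) := by
    have h1 : Tendsto (fun k : ℕ => β k - β k / ((k : ℝ) + 1)) atTop (𝓝 1) := by
      have h2 := hβl.mul (tendsto_one_div_add_atTop_nhds_zero_nat (𝕜 := ℝ))
      have := hβl.sub h2
      rw [mul_zero, sub_zero] at this
      refine this.congr fun n => ?_
      ring
    refine tendsto_of_tendsto_of_tendsto_of_le_of_le h1 tendsto_const_nhds
      (fun k => (hx2 k).le) fun k => ?_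
    refine ((G k).le_opNorm (x k)).trans ?_
    rw [hx1, hGn, mul_one]
    exact (hβ1 k).le
  have hφt := hφ.tendsto_atTop
  have hWN : WeaklyNull 𝕜 x := by
    by_contra hnw
    obtain ⟨y, hy1, hy2⟩ := wmp_seq hW G (fun n => by rw [hGn]; exact (hβ1 n).le) x hx1 hlim hnw
    -- eventually `‖G n y‖` is at most `q < 1`
    have hlt : ‖f‖ / r < 1 := (div_lt_one hr).2 hf
    have h1 : Tendsto (fun n => 1 / r * (‖f‖ + ‖u (φ n) y‖)) atTop (𝓝 (1 / r * (‖f‖ + 0))) := by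
      have h2 := ((h0 y).comp hφt).norm
      rw [norm_zero] at h2
      exact (h2.const_add ‖f‖).const_mul (1 / r)
    have h3 : 1 / r * (‖f‖ + 0) < 1 := by
      rw [add_zero, one_div_mul_eq_div]; exact hlt
    obtain ⟨q, hq1, hq2⟩ := exists_between h3
    obtain ⟨N, hN⟩ := eventually_atTop.1 (h1.eventually (gt_mem_nhds hq1))
    obtain ⟨n, hn⟩ := hy2 (1 - max q (β N)) (by
      have := max_lt hq2 (hβ1 N)
      linarith)
    have h4 : ‖G n y‖ ≤ max q (β N) := by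
      rcases le_total N n with hNn | hNn
      · refine le_trans ?_ (le_max_left _ _)
        refine le_trans ?_ (hN n hNn).le
        rw [hGa]
        refine mul_le_mul (hcoefle n) ?_ (norm_nonneg _) (by positivity)
        refine (norm_add_le _ _).trans ?_
        have := f.le_opNorm y
        rw [hy1, mul_one] at this
        linarith
      · refine le_trans ?_ (le_max_right _ _)
        refine ((G n).le_opNorm y).trans ?_
        rw [hGn, hy1, mul_one]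
        exact hβm n N hNn
    linarith
  -- now `f (x k) → 0`, contradiction
  have hfx := (hWN f).norm
  rw [norm_zero] at hfx
  have h5 : ∀ k, r * ‖G k (x k)‖ ≤ ‖f (x k)‖ + s := fun k => by
    have h6 : r * ‖G k (x k)‖ ≤ ‖f (x k) + u (φ k) (x k)‖ := by
      rw [hGa, ← mul_assoc]
      refine mul_le_of_le_one_left (norm_nonneg _) ?_
      calc r * (β k / ‖f + u (φ k)‖) ≤ r * (1 / r) :=
            mul_le_mul_of_nonneg_left (hcoefle k) hr.le
        _ = 1 := mul_one_div_cancel hr.ne'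
    refine h6.trans ((norm_add_le _ _).trans ?_)
    have h7 := (u (φ k)).le_opNorm (x k)
    rw [hx1, mul_one] at h7
    linarith [hu (φ k)]
  have h8 := le_of_tendsto_of_tendsto' (hlim.const_mul r) (hfx.add_const s) h5
  rw [mul_one, zero_add] at h8
  linarith

/-- Uniform version of `key` over the scalars of modulus at most one. -/
theorem key' (hW : WMP 𝕜 E (lp (fun _ : ℕ => 𝕜) ∞)) (f : E →L[𝕜] 𝕜) (v : ℕ → (E →L[𝕜] 𝕜))
    (hv : ∀ n, ‖v n‖ = 1) (h0 : ∀ y, Tendsto (fun n => v n y) atTop (𝓝 0))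
    (c : ℝ) (hc0 : 0 ≤ c) (r : ℝ) (hf : ‖f‖ < r) (hcr : c < r) :
    ∀ᶠ n in atTop, ∀ a : 𝕜, ‖a‖ ≤ c → ‖f + a • v n‖ < r := by
  classical
  have hex : ∀ n, ∃ a : 𝕜, ‖a‖ ≤ c ∧ ((∃ b : 𝕜, ‖b‖ ≤ c ∧ r ≤ ‖f + b • v n‖) →
      r ≤ ‖f + a • v n‖) := fun n => by
    by_cases h : ∃ b : 𝕜, ‖b‖ ≤ c ∧ r ≤ ‖f + b • v n‖
    · obtain ⟨b, hb1, hb2⟩ := h
      exact ⟨b, hb1, fun _ => hb2⟩
    · exact ⟨0, by simpa using hc0, fun h' => absurd h' h⟩
  choose a ha1 ha2 using hex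
  have hu : ∀ n, ‖a n • v n‖ ≤ c := fun n => by rw [norm_smul, hv, mul_one]; exact ha1 n
  have hnull : ∀ y, Tendsto (fun n => (a n • v n) y) atTop (𝓝 0) := fun y => by
    have h1 : Tendsto (fun n => c * ‖v n y‖) atTop (𝓝 0) := by
      have := ((h0 y).norm).const_mul c
      simpa using this
    refine squeeze_zero_norm (fun n => ?_) h1
    rw [ContinuousLinearMap.smul_apply, norm_smul]
    exact mul_le_mul_of_nonneg_right (ha1 n) (norm_nonneg _)
  filter_upwards [key hW f (fun n => a n • v n) r c hf hcr hu hnull] with n hn b hb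
  by_contra hcon
  push Not at hcon
  exact absurd (ha2 n ⟨b, hb, hcon⟩) (not_le.2 hn)

/-- Version of `key` over compact sets. -/
theorem key_compact (hW : WMP 𝕜 E (lp (fun _ : ℕ => 𝕜) ∞)) (v : ℕ → (E →L[𝕜] 𝕜))
    (hv : ∀ n, ‖v n‖ = 1) (h0 : ∀ y, Tendsto (fun n => v n y) atTop (𝓝 0))
    (c : ℝ) (hc0 : 0 ≤ c) (hc1 : c < 1) (K : Set (E →L[𝕜] 𝕜)) (hK : IsCompact K)
    (hK1 : ∀ f ∈ K, ‖f‖ < 1) :
    ∀ᶠ n in atTop, ∀ f ∈ K, ∀ a : 𝕜, ‖a‖ ≤ c → ‖f + a • v n‖ < 1 := by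
  refine hK.induction_on (p := fun s => ∀ᶠ n in atTop, ∀ f ∈ s, ∀ a : 𝕜, ‖a‖ ≤ c →
    ‖f + a • v n‖ < 1) ?_ ?_ ?_ ?_
  · exact Eventually.of_forall fun n f hf => absurd hf (Set.notMem_empty f)
  · intro s t hst ht
    filter_upwards [ht] with n hn f hf
    exact hn f (hst hf)
  · intro s t hs ht
    filter_upwards [hs, ht] with n hns hnt f hf
    rcases hf with hf | hf
    · exact hns f hf
    · exact hnt f hf
  · intro f hf
    obtain ⟨r, hr1, hr2⟩ := exists_between (max_lt (hK1 f hf) hc1)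
    refine ⟨Metric.ball f (1 - r) , mem_nhdsWithin_of_mem_nhds (Metric.ball_mem_nhds f
      (by linarith)), ?_⟩
    filter_upwards [key' hW f v hv h0 c hc0 r ((le_max_left _ _).trans_lt hr1)
      ((le_max_right _ _).trans_lt hr1)] with n hn g hg a ha
    have h1 : ‖g - f‖ < 1 - r := by rwa [Metric.mem_ball, dist_eq_norm] at hg
    calc ‖g + a • v n‖ = ‖(g - f) + (f + a • v n)‖ := by congr 1; abel
      _ ≤ ‖g - f‖ + ‖f + a • v n‖ := norm_add_le _ _
      _ < 1 := by linarith [hn a ha]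

/-- The weights. -/
noncomputable def wt (j : ℕ) : ℝ := 1 - 1 / ((j : ℝ) + 2)

theorem wt_pos (n : ℕ) : 0 < wt n := by
  have : 1 / ((n : ℝ) + 2) < 1 := by
    rw [div_lt_one (by positivity)]
    linarith [(Nat.cast_nonneg n : (0 : ℝ) ≤ n)]
  simp only [wt]; linarith

theorem wt_lt_one (n : ℕ) : wt n < 1 := by
  have : 0 < 1 / ((n : ℝ) + 2) := by positivity
  simp only [wt]; linarith

theorem wt_tendsto : Tendsto wt atTop (𝓝 1) := by
  have h1 := ((tendsto_one_div_add_atTop_nhds_zero_nat (𝕜 := ℝ)).comp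
    (tendsto_add_atTop_nat 1)).const_sub 1
  rw [sub_zero] at h1
  refine h1.congr fun n => ?_
  simp only [wt, Function.comp]
  push_cast
  ring_nf

/-- Selection of a subsequence spanning polydiscs in the unit ball. -/
theorem selection (hW : WMP 𝕜 E (lp (fun _ : ℕ => 𝕜) ∞)) (v : ℕ → (E →L[𝕜] 𝕜))
    (hv : ∀ n, ‖v n‖ = 1) (h0 : ∀ y, Tendsto (fun n => v n y) atTop (𝓝 0)) :
    ∃ m : ℕ → ℕ, ∀ (k : ℕ) (a : ℕ → 𝕜), (∀ j, ‖a j‖ ≤ wt j) →
      ‖∑ j ∈ range k, a j • v (m j)‖ ≤ 1 := by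
  classical
  have hstep : ∀ (c : ℝ) (K : Set (E →L[𝕜] 𝕜)), 0 ≤ c → c < 1 → IsCompact K →
      (∀ f ∈ K, ‖f‖ < 1) → ∃ n, ∀ f ∈ K, ∀ a : 𝕜, ‖a‖ ≤ c → ‖f + a • v n‖ < 1 :=
    fun c K hc0 hc1 hK hK1 => (key_compact hW v hv h0 c hc0 hc1 K hK hK1).exists
  let St := {K : Set (E →L[𝕜] 𝕜) // IsCompact K ∧ ∀ f ∈ K, ‖f‖ < 1}
  let idx : ℕ → St → ℕ := fun j K =>
    Classical.choose (hstep (wt j) K.1 (wt_pos j).le (wt_lt_one j) K.2.1 K.2.2)
  have hidx : ∀ (j : ℕ) (K : St), ∀ f ∈ K.1, ∀ a : 𝕜, ‖a‖ ≤ wt j → ‖f + a • v (idx j K)‖ < 1 :=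
    fun j K => Classical.choose_spec (hstep (wt j) K.1 (wt_pos j).le (wt_lt_one j) K.2.1 K.2.2)
  let nxt : ℕ → St → St := fun j K =>
    ⟨(fun p : (E →L[𝕜] 𝕜) × 𝕜 => p.1 + p.2 • v (idx j K)) ''
      (K.1 ×ˢ Metric.closedBall (0 : 𝕜) (wt j)), by
      refine ⟨(K.2.1.prod (isCompact_closedBall _ _)).image (by fun_prop), ?_⟩
      rintro _ ⟨⟨f, a⟩, ⟨hf, ha⟩, rfl⟩
      exact hidx j K f hf a (by simpa using ha)⟩
  let St0 : St := ⟨{0}, isCompact_singleton, by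
    rintro f hf
    rw [Set.mem_singleton_iff.1 hf, norm_zero]; exact one_pos⟩
  let KK : ℕ → St := fun n => Nat.rec St0 nxt n
  refine ⟨fun j => idx j (KK j), fun k a ha => ?_⟩
  have hmem : ∀ k, ∑ j ∈ range k, a j • v (idx j (KK j)) ∈ (KK k).1 := by
    intro k
    induction k with
    | zero => simp only [range_zero, sum_empty]; exact Set.mem_singleton _
    | succ k ih =>
      rw [sum_range_succ]
      exact ⟨(_, a k), ⟨ih, by simpa using ha k⟩, rfl⟩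
  exact ((KK k).2.2 _ (hmem k)).le

end

end Pool.Agent.P8H75.JN
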