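import Mathlib
import Pool.Agent.P8H75.JN5

/-!
The weak maximizing property with range `ℓ_∞` forces the domain to be finite-dimensional: the end
of the proof.
-/

set_option autoImplicit false

open Filter Topology Finset
open scoped ENNReal ComplexConjugate

namespace Pool.Agent.P8H75.JN

section

variable {𝕜 : Type*} [RCLike 𝕜] {E : Type*} [NormedAddCommGroup E] [NormedSpace 𝕜 E]

/-- Real functionals attain their norms as well. -/
theorem real_attains [NormedSpace ℝ E] [IsScalarTower ℝ 𝕜 E]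
    (hW : WMP 𝕜 E (lp (fun _ : ℕ => 𝕜) ∞)) (f : E →L[ℝ] ℝ) :
    ∃ x : E, ‖x‖ ≤ 1 ∧ f x = ‖f‖ := by
  by_cases hf : ‖f‖ = 0
  · exact ⟨0, by simp, by rw [map_zero, hf]⟩
  have hfpos : 0 < ‖f‖ := lt_of_le_of_ne (norm_nonneg _) (Ne.symm hf)
  set F : E →L[𝕜] 𝕜 := StrongDual.extendRCLike (𝕜 := 𝕜) f with hF
  have hFn : ‖F‖ = ‖f‖ := StrongDual.norm_extendRCLike (𝕜 := 𝕜) f
  obtain ⟨y, hy1, hy2⟩ := wmp_attains hW (((‖f‖⁻¹ : ℝ) : 𝕜) • F) (by
    rw [norm_smul, RCLike.norm_ofReal, abs_of_pos (inv_pos.2 hfpos), hFn,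
      inv_mul_cancel₀ hfpos.ne'])
  have hFy : ‖F y‖ = ‖f‖ := by
    have h1 : ‖((‖f‖⁻¹ : ℝ) : 𝕜) * F y‖ = 1 := hy2
    rw [norm_mul, RCLike.norm_ofReal, abs_of_pos (inv_pos.2 hfpos)] at h1
    field_simp at h1
    exact h1
  have h2 : ‖F y‖ ^ 2 = f (conj (F y) • y) :=
    Module.Dual.norm_extendRCLike_apply_sq (𝕜 := 𝕜) f.toLinearMap y
  refine ⟨(‖f‖⁻¹ : ℝ) • conj (F y) • y, ?_, ?_⟩
  · rw [norm_smul, norm_smul, RCLike.norm_conj, hFy, hy1, norm_inv, norm_norm, mul_one,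
      inv_mul_cancel₀ hf]
  · rw [map_smul, ← h2, hFy, smul_eq_mul]
    field_simp

/-- A weak* null normalized sequence in the dual. -/
theorem exists_null' (hW : WMP 𝕜 E (lp (fun _ : ℕ => 𝕜) ∞)) (hE : ¬ FiniteDimensional 𝕜 E) :
    ∃ v : ℕ → (E →L[𝕜] 𝕜), (∀ n, ‖v n‖ = 1) ∧ ∀ y, Tendsto (fun n => v n y) atTop (𝓝 0) := by
  let _ : NormedSpace ℝ E := NormedSpace.restrictScalars ℝ 𝕜 E
  have _ : IsScalarTower ℝ 𝕜 E := RestrictScalars.isScalarTower ℝ 𝕜 E
  have hER : ¬ FiniteDimensional ℝ E := fun h => hE (FiniteDimensional.right ℝ 𝕜 E)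
  obtain ⟨u, hu1, hu0⟩ := exists_null hER (real_attains hW)
  refine ⟨fun n => StrongDual.extendRCLike (𝕜 := 𝕜) (u n), fun n => ?_, fun y => ?_⟩
  · rw [StrongDual.norm_extendRCLike]
    exact hu1 n
  · have h1 : Tendsto (fun n => ((u n y : ℝ) : 𝕜)) atTop (𝓝 0) := by
      have := ((RCLike.continuous_ofReal (K := 𝕜)).tendsto (0 : ℝ)).comp (hu0 y)
      rw [RCLike.ofReal_zero] at this
      exact this
    have h2 : Tendsto (fun n => ((u n ((RCLike.I : 𝕜) • y) : ℝ) : 𝕜)) atTop (𝓝 0) := by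
      have := ((RCLike.continuous_ofReal (K := 𝕜)).tendsto (0 : ℝ)).comp
        (hu0 ((RCLike.I : 𝕜) • y))
      rw [RCLike.ofReal_zero] at this
      exact this
    have h3 := h1.sub (h2.const_mul (RCLike.I : 𝕜))
    rw [mul_zero, sub_zero] at h3
    exact h3

/-- Absolute summability of the selected functionals. -/
theorem abs_sum (v : ℕ → (E →L[𝕜] 𝕜)) (m : ℕ → ℕ)
    (hm : ∀ (k : ℕ) (a : ℕ → 𝕜), (∀ j, ‖a j‖ ≤ wt j) → ‖∑ j ∈ range k, a j • v (m j)‖ ≤ 1)
    (x : E) (k : ℕ) : ∑ j ∈ range k, wt j * ‖v (m j) x‖ ≤ ‖x‖ := by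
  -- unimodular multipliers
  have hex : ∀ j, ∃ a : 𝕜, ‖a‖ ≤ wt j ∧ a * v (m j) x = ((wt j * ‖v (m j) x‖ : ℝ) : 𝕜) := by
    intro j
    by_cases h : v (m j) x = 0
    · exact ⟨0, by simpa using (wt_pos j).le, by simp [h]⟩
    · have hn : ‖v (m j) x‖ ≠ 0 := norm_ne_zero_iff.2 h
      refine ⟨((wt j / ‖v (m j) x‖ : ℝ) : 𝕜) * conj (v (m j) x), ?_, ?_⟩
      · rw [norm_mul, RCLike.norm_conj, RCLike.norm_ofReal, abs_of_nonneg
          (div_nonneg (wt_pos j).le (norm_nonneg _)), div_mul_cancel₀ _ hn]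
      · rw [mul_assoc, RCLike.conj_mul, ← RCLike.ofReal_pow, ← RCLike.ofReal_mul]
        congr 1
        field_simp
  choose a ha1 ha2 using hex
  have h1 := (∑ j ∈ range k, a j • v (m j)).le_opNorm x
  have h2 : (∑ j ∈ range k, a j • v (m j)) x =
      ((∑ j ∈ range k, wt j * ‖v (m j) x‖ : ℝ) : 𝕜) := by
    rw [ContinuousLinearMap.sum_apply, RCLike.ofReal_sum]
    exact sum_congr rfl fun j _ => ha2 j
  rw [h2, RCLike.norm_ofReal] at h1
  exact (le_abs_self _).trans (h1.trans (mul_le_of_le_one_left (norm_nonneg _) (hm k a ha1)))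

/-- The weak maximizing property with range `ℓ_∞` forces the domain to be finite-dimensional. -/
theorem finite_of_wmp (hW : WMP 𝕜 E (lp (fun _ : ℕ => 𝕜) ∞)) : FiniteDimensional 𝕜 E := by
  by_contra hE
  obtain ⟨v, hv1, hv0⟩ := exists_null' hW hE
  obtain ⟨m, hm⟩ := selection hW v hv1 hv0
  have hA : ∀ x : E, Summable fun j => wt j * ‖v (m j) x‖ := fun x =>
    summable_of_sum_range_le (fun j => mul_nonneg (wt_pos j).le (norm_nonneg _))
      (abs_sum v m hm x)
  have hA1 : ∀ x : E, ∑' j, wt j * ‖v (m j) x‖ ≤ ‖x‖ := fun x =>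
    Real.tsum_le_of_sum_range_le (fun j => mul_nonneg (wt_pos j).le (norm_nonneg _))
      (abs_sum v m hm x)
  have hBle : ∀ (x : E) j, ‖((wt j * wt j : ℝ) : 𝕜) * v (m j) x‖ ≤ wt j * ‖v (m j) x‖ := by
    intro x j
    rw [norm_mul, RCLike.norm_ofReal, abs_of_pos (mul_pos (wt_pos j) (wt_pos j)), mul_assoc]
    refine mul_le_mul_of_nonneg_left ?_ (wt_pos j).le
    exact mul_le_of_le_one_left (norm_nonneg _) (wt_lt_one j).le
  have hB : ∀ x : E, Summable fun j => ((wt j * wt j : ℝ) : 𝕜) * v (m j) x := fun x =>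
    Summable.of_norm_bounded (hA x) (hBle x)
  have hB1 : ∀ x : E, ‖∑' j, ((wt j * wt j : ℝ) : 𝕜) * v (m j) x‖ ≤ 1 * ‖x‖ := fun x => by
    rw [one_mul]
    exact (tsum_of_norm_bounded (hA x).hasSum (hBle x)).trans (hA1 x)
  set f : E →L[𝕜] 𝕜 := LinearMap.mkContinuous
    { toFun := fun x => ∑' j, ((wt j * wt j : ℝ) : 𝕜) * v (m j) x
      map_add' := fun x y => by
        rw [← (hB x).tsum_add (hB y)]
        refine tsum_congr fun j => ?_
        rw [map_add, mul_add]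
      map_smul' := fun c x => by
        rw [RingHom.id_apply, smul_eq_mul, ← tsum_mul_left]
        refine tsum_congr fun j => ?_
        rw [map_smul, smul_eq_mul]
        ring } 1 hB1 with hfdef
  have hfa : ∀ x, f x = ∑' j, ((wt j * wt j : ℝ) : 𝕜) * v (m j) x := fun x => rfl
  have hf1 : ‖f‖ ≤ 1 := LinearMap.mkContinuous_norm_le _ zero_le_one _
  -- `f` does not attain the value `1`
  have hlt : ∀ x : E, ‖x‖ = 1 → ‖f x‖ < 1 := by
    intro x hx
    by_cases hz : ∀ j, v (m j) x = 0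
    · rw [hfa]
      simp [hz]
    · push Not at hz
      obtain ⟨j0, hj0⟩ := hz
      have h1 : ‖f x‖ ≤ ∑' j, wt j * wt j * ‖v (m j) x‖ := by
        rw [hfa]
        refine tsum_of_norm_bounded (Summable.hasSum ?_) fun j => ?_
        · refine Summable.of_nonneg_of_le (fun j => ?_) (fun j => ?_) (hA x)
          · exact mul_nonneg (mul_pos (wt_pos j) (wt_pos j)).le (norm_nonneg _)
          · rw [mul_assoc]
            exact mul_le_mul_of_nonneg_left
              (mul_le_of_le_one_left (norm_nonneg _) (wt_lt_one j).le) (wt_pos j).le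
        · rw [norm_mul, RCLike.norm_ofReal, abs_of_pos (mul_pos (wt_pos j) (wt_pos j))]
      have h2 : ∑' j, wt j * wt j * ‖v (m j) x‖ < ∑' j, wt j * ‖v (m j) x‖ := by
        refine Summable.tsum_lt_tsum (i := j0) (fun j => ?_) ?_ ?_ (hA x)
        · change wt j * wt j * ‖v (m j) x‖ ≤ wt j * ‖v (m j) x‖
          rw [mul_assoc]
          exact mul_le_mul_of_nonneg_left
            (mul_le_of_le_one_left (norm_nonneg _) (wt_lt_one j).le) (wt_pos j).le
        · rw [mul_assoc]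
          refine mul_lt_mul_of_pos_left ?_ (wt_pos j0)
          exact mul_lt_of_lt_one_left (norm_pos_iff.2 hj0) (wt_lt_one j0)
        · refine Summable.of_nonneg_of_le (fun j => ?_) (fun j => ?_) (hA x)
          · exact mul_nonneg (mul_pos (wt_pos j) (wt_pos j)).le (norm_nonneg _)
          · rw [mul_assoc]
            exact mul_le_mul_of_nonneg_left
              (mul_le_of_le_one_left (norm_nonneg _) (wt_lt_one j).le) (wt_pos j).le
      have h3 := hA1 x
      rw [hx] at h3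
      linarith
  -- nearly norming vectors
  have hex : ∀ k : ℕ, ∃ x : E, ‖x‖ = 1 ∧ 1 - 1 / ((k : ℝ) + 1) < ‖v (m k) x‖ := fun k => by
    refine exists_unit ?_ ?_
    · have : 1 / ((k : ℝ) + 1) ≤ 1 := by
        rw [div_le_one (by positivity)]
        linarith [(Nat.cast_nonneg k : (0 : ℝ) ≤ k)]
      linarith
    · rw [hv1]
      have : 0 < 1 / ((k : ℝ) + 1) := by positivity
      linarith
  choose x hx1 hx2 using hex
  have hlow : ∀ k, wt k * wt k * ‖v (m k) (x k)‖ + wt k * ‖v (m k) (x k)‖ - 1 ≤ ‖f‖ := by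
    intro k
    have e1 := (hA (x k)).tsum_eq_add_tsum_ite k
    have e2 := (hB (x k)).tsum_eq_add_tsum_ite k
    have hs : Summable fun j => ite (j = k) 0 (wt j * ‖v (m j) (x k)‖) := by
      refine Summable.of_nonneg_of_le (fun j => ?_) (fun j => ?_) (hA (x k))
      · split_ifs
        · exact le_rfl
        · exact mul_nonneg (wt_pos j).le (norm_nonneg _)
      · split_ifs
        · exact mul_nonneg (wt_pos j).le (norm_nonneg _)
        · exact le_rfl
    have e3 : ‖∑' j, ite (j = k) 0 (((wt j * wt j : ℝ) : 𝕜) * v (m j) (x k))‖ ≤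
        ∑' j, ite (j = k) 0 (wt j * ‖v (m j) (x k)‖) := by
      refine tsum_of_norm_bounded hs.hasSum fun j => ?_
      split_ifs
      · simp
      · exact hBle (x k) j
    have e4 : ‖((wt k * wt k : ℝ) : 𝕜) * v (m k) (x k)‖ = wt k * wt k * ‖v (m k) (x k)‖ := by
      rw [norm_mul, RCLike.norm_ofReal, abs_of_pos (mul_pos (wt_pos k) (wt_pos k))]
    have e5 := hA1 (x k)
    rw [hx1] at e5
    have e6 : ‖((wt k * wt k : ℝ) : 𝕜) * v (m k) (x k)‖ ≤ ‖f (x k)‖ +
        ‖∑' j, ite (j = k) 0 (((wt j * wt j : ℝ) : 𝕜) * v (m j) (x k))‖ := by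
      have : ((wt k * wt k : ℝ) : 𝕜) * v (m k) (x k) = f (x k) -
          ∑' j, ite (j = k) 0 (((wt j * wt j : ℝ) : 𝕜) * v (m j) (x k)) := by
        rw [hfa, e2]
        ring
      rw [this]
      exact norm_sub_le _ _
    have e7 : ‖f (x k)‖ ≤ ‖f‖ := by
      have := f.le_opNorm (x k)
      rwa [hx1, mul_one] at this
    linarith
  have hvl : Tendsto (fun k => ‖v (m k) (x k)‖) atTop (𝓝 1) := by
    have h1 : Tendsto (fun k : ℕ => 1 - 1 / ((k : ℝ) + 1)) atTop (𝓝 1) := by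
      have := (tendsto_one_div_add_atTop_nhds_zero_nat (𝕜 := ℝ)).const_sub 1
      simpa using this
    refine tendsto_of_tendsto_of_tendsto_of_le_of_le h1 tendsto_const_nhds
      (fun k => (hx2 k).le) fun k => ?_
    refine ((v (m k)).le_opNorm (x k)).trans ?_
    rw [hx1, hv1, mul_one]
  have hf2 : 1 ≤ ‖f‖ := by
    have h1 := (((wt_tendsto.mul wt_tendsto).mul hvl).add (wt_tendsto.mul hvl)).sub_const 1
    have h2 := le_of_tendsto' h1 hlow
    linarith
  obtain ⟨y, hy1, hy2⟩ := wmp_attains hW f (le_antisymm hf1 hf2)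
  exact absurd (hlt y hy1) (by rw [hy2]; exact lt_irrefl _)

end

/-- Conversely, finite-dimensional domains have the weak maximizing property for all ranges. -/
theorem wmp_of_finite (𝕜 : Type*) [RCLike 𝕜] (E F : Type*) [NormedAddCommGroup E]
    [NormedSpace 𝕜 E] [NormedAddCommGroup F] [NormedSpace 𝕜 F] (hE : FiniteDimensional 𝕜 E) :
    WMP 𝕜 E F := by
  rintro T ⟨x, ⟨hx1, hx2⟩, -⟩
  have _ : ProperSpace E := FiniteDimensional.proper_rclike 𝕜 E
  obtain ⟨y, hy, φ, hφ, hlim⟩ := (isCompact_sphere (0 : E) 1).tendsto_subseq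
    (x := x) (fun n => by simpa using hx1 n)
  refine ⟨y, by simpa using hy, ?_⟩
  have h1 : Tendsto (fun n => ‖T (x (φ n))‖) atTop (𝓝 ‖T y‖) :=
    ((T.continuous.tendsto y).comp hlim).norm
  exact tendsto_nhds_unique h1 (hx2.comp hφ.tendsto_atTop)

end Pool.Agent.P8H75.JN
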