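import Mathlib
import Pool.Agent.Results.MP_777e28_an.NetIso

/-!
Spaces of Lipschitz functions vanishing at a base point, and their `ℓ_∞`-sums for nets.
-/

set_option autoImplicit false

open Filter Topology
open scoped ENNReal

namespace Pool.Agent.P8H75.LN

universe u

/-- The real vector space of the Lipschitz functions on `M` vanishing at the base point `o`. -/
def lipSub (M : Type u) [MetricSpace M] (o : M) : Submodule ℝ (M → ℝ) where
  carrier := {f | f o = 0 ∧ ∃ K : ℝ, 0 ≤ K ∧ ∀ x y, |f x - f y| ≤ K * dist x y}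
  zero_mem' := ⟨rfl, 0, le_rfl, fun x y => by simp⟩
  add_mem' := by
    rintro f g ⟨hf, K, hK, hfK⟩ ⟨hg, L, hL, hgL⟩
    refine ⟨by simp [hf, hg], K + L, by positivity, fun x y => ?_⟩
    have : (f + g) x - (f + g) y = (f x - f y) + (g x - g y) := by
      simp only [Pi.add_apply]; ring
    rw [this, add_mul]
    exact (abs_add_le _ _).trans (add_le_add (hfK x y) (hgL x y))
  smul_mem' := by
    rintro c f ⟨hf, K, hK, hfK⟩
    refine ⟨by simp [hf], |c| * K, by positivity, fun x y => ?_⟩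
    have : (c • f) x - (c • f) y = c * (f x - f y) := by
      simp only [Pi.smul_apply, smul_eq_mul]; ring
    rw [this, abs_mul, mul_assoc]
    exact mul_le_mul_of_nonneg_left (hfK x y) (abs_nonneg _)

/-- `Lip0 M o`: the space of the real Lipschitz functions on `M` vanishing at `o`. -/
def Lip0 (M : Type u) [MetricSpace M] (o : M) : Type u := ↥(lipSub M o)

variable {M : Type u} [MetricSpace M] {o : M}

/-- The underlying function. -/
def Lip0.fn (f : Lip0 M o) : M → ℝ := f.1

section raw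

/-- pointwise addition -/
local instance lipACG : AddCommGroup (Lip0 M o) := Submodule.addCommGroup (lipSub M o)
/-- pointwise scalar multiplication -/
local instance lipMod : Module ℝ (Lip0 M o) := Submodule.module (lipSub M o)

/-- The norm of `Lip0 M o`: the supremum of `|f x - f y| / d(x, y)` (the terms with `x = y` are
zero). -/
noncomputable instance : Norm (Lip0 M o) :=
  ⟨fun f => ⨆ p : M × M, |f.fn p.1 - f.fn p.2| / dist p.1 p.2⟩

theorem Lip0.norm_def (f : Lip0 M o) :
    ‖f‖ = ⨆ p : M × M, |f.fn p.1 - f.fn p.2| / dist p.1 p.2 := rfl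

theorem Lip0.ext {f g : Lip0 M o} (h : ∀ x, f.fn x = g.fn x) : f = g :=
  Subtype.ext (funext h)

theorem Lip0.fn_base (f : Lip0 M o) : f.fn o = 0 := f.2.1

/-- Constructor. -/
def Lip0.mk (f : M → ℝ) (h0 : f o = 0) (K : ℝ) (hK : 0 ≤ K)
    (h : ∀ x y, |f x - f y| ≤ K * dist x y) : Lip0 M o := ⟨f, h0, K, hK, h⟩

theorem Lip0.norm_le' (f : Lip0 M o) {K : ℝ} (hK : 0 ≤ K)
    (h : ∀ x y, |f.fn x - f.fn y| ≤ K * dist x y) : ‖f‖ ≤ K := by
  refine Real.iSup_le (fun p => ?_) hK
  exact div_le_of_le_mul₀ dist_nonneg hK (h p.1 p.2)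

theorem Lip0.norm_nonneg' (f : Lip0 M o) : 0 ≤ ‖f‖ :=
  Real.iSup_nonneg fun p => div_nonneg (abs_nonneg _) dist_nonneg

theorem Lip0.abs_sub_le (f : Lip0 M o) (x y : M) : |f.fn x - f.fn y| ≤ ‖f‖ * dist x y := by
  rcases eq_or_ne x y with rfl | hxy
  · simp
  · have hd : 0 < dist x y := dist_pos.2 hxy
    rw [← div_le_iff₀ hd]
    obtain ⟨K, hK0, hK⟩ := f.2.2
    have hb : BddAbove (Set.range fun p : M × M => |f.fn p.1 - f.fn p.2| / dist p.1 p.2) := by
      refine ⟨K, ?_⟩
      rintro _ ⟨p, rfl⟩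
      exact div_le_of_le_mul₀ dist_nonneg hK0 (hK p.1 p.2)
    exact le_ciSup hb (x, y)

theorem Lip0.core : NormedSpace.Core ℝ (Lip0 M o) where
  norm_nonneg f := f.norm_nonneg'
  norm_smul c f := by
    apply le_antisymm
    · refine Lip0.norm_le' _ (mul_nonneg (norm_nonneg _) f.norm_nonneg') fun x y => ?_
      have : (c • f).fn x - (c • f).fn y = c * (f.fn x - f.fn y) :=
        (mul_sub c (f.fn x) (f.fn y)).symm
      rw [this, abs_mul, mul_assoc]
      exact mul_le_mul_of_nonneg_left (f.abs_sub_le x y) (abs_nonneg _)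
    · rcases eq_or_ne c 0 with rfl | hc
      · simp only [norm_zero, zero_mul]; exact Lip0.norm_nonneg' _
      · have hc' : 0 < ‖c‖ := norm_pos_iff.2 hc
        rw [← le_div_iff₀' hc']
        refine Lip0.norm_le' _ (div_nonneg (Lip0.norm_nonneg' _) hc'.le) fun x y => ?_
        have h1 := (c • f).abs_sub_le x y
        have : (c • f).fn x - (c • f).fn y = c * (f.fn x - f.fn y) :=
          (mul_sub c (f.fn x) (f.fn y)).symm
        rw [this, abs_mul] at h1
        rw [div_mul_eq_mul_div, le_div_iff₀ hc']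
        rw [Real.norm_eq_abs, mul_comm]
        exact h1
  norm_triangle f g := by
    refine Lip0.norm_le' _ (add_nonneg f.norm_nonneg' g.norm_nonneg') fun x y => ?_
    have : (f + g).fn x - (f + g).fn y = (f.fn x - f.fn y) + (g.fn x - g.fn y) :=
      add_sub_add_comm (f.fn x) (g.fn x) (f.fn y) (g.fn y)
    rw [this, add_mul]
    exact (abs_add_le _ _).trans (add_le_add (f.abs_sub_le x y) (g.abs_sub_le x y))
  norm_eq_zero_iff f := by
    constructor
    · intro h
      apply Lip0.ext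
      intro x
      have h1 := f.abs_sub_le x o
      rw [h, zero_mul, Lip0.fn_base, sub_zero] at h1
      exact abs_nonpos_iff.1 h1
    · rintro rfl
      apply le_antisymm _ (Lip0.norm_nonneg' _)
      refine Lip0.norm_le' _ le_rfl fun x y => ?_
      change |(0 : ℝ) - 0| ≤ _
      simp

noncomputable instance : NormedAddCommGroup (Lip0 M o) :=
  NormedAddCommGroup.ofCore (Lip0.core (M := M) (o := o))
noncomputable instance : NormedSpace ℝ (Lip0 M o) :=
  NormedSpace.ofCore (Lip0.core (M := M) (o := o))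

end raw

theorem Lip0.fn_add (f g : Lip0 M o) (x : M) : (f + g).fn x = f.fn x + g.fn x := rfl
theorem Lip0.fn_smul (c : ℝ) (f : Lip0 M o) (x : M) : (c • f).fn x = c * f.fn x := rfl

/-- A net in a metric space, as in the problem file. -/
def IsNet {X : Type u} [MetricSpace X] (N : Set X) : Prop :=
  ∃ ε δ : ℝ, 0 < ε ∧ 0 < δ ∧ (∀ x ∈ N, ∀ y ∈ N, x ≠ y → ε ≤ dist x y) ∧
    ∀ x : X, ∃ y ∈ N, dist x y < δ

section dualL1

variable {F : Type*} [NormedAddCommGroup F] [NormedSpace ℝ F]

/-- the dual of an `ℓ_1`-sum is the `ℓ_∞`-sum of the duals -/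
theorem dual_l1 : Nonempty ((lp (fun _ : ℕ => F) 1 →L[ℝ] ℝ) ≃L[ℝ]
    lp (fun _ : ℕ => (F →L[ℝ] ℝ)) ∞) := by
  classical
  have hsn : ∀ (n : ℕ) (y : F),
      ‖(lp.single (E := fun _ : ℕ => F) 1 n y : lp (fun _ : ℕ => F) 1)‖ = ‖y‖ := fun n y =>
    lp.norm_single (E := fun _ : ℕ => F) one_pos n y
  let sg : ℕ → (F →L[ℝ] lp (fun _ : ℕ => F) 1) := fun n =>
    LinearMap.mkContinuous
      { toFun := fun y => (lp.single (E := fun _ : ℕ => F) 1 n y : lp (fun _ : ℕ => F) 1)
        map_add' := fun x y => lp.single_add (E := fun _ : ℕ => F) 1 n x y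
        map_smul' := fun c x => lp.single_smul (E := fun _ : ℕ => F) 1 n c x } 1 (fun y => by
          rw [one_mul]; exact (hsn n y).le)
  have hsg : ∀ n, ‖sg n‖ ≤ 1 := fun n => LinearMap.mkContinuous_norm_le _ zero_le_one _
  have hsum : ∀ f : lp (fun _ : ℕ => F) 1, Summable fun n => ‖f n‖ := fun f => by
    have h := (lp.memℓp (E := fun _ : ℕ => F) (p := 1) f).summable (by norm_num)
    simpa only [ENNReal.toReal_one, Real.rpow_one] using h
  have hnorm : ∀ f : lp (fun _ : ℕ => F) 1, ‖f‖ = ∑' n, ‖f n‖ := fun f => by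
    have h := lp.norm_eq_tsum_rpow (E := fun _ : ℕ => F) (p := 1) (by norm_num) f
    simpa only [ENNReal.toReal_one, Real.rpow_one, div_one] using h
  have hΦ : ∀ (g : lp (fun _ : ℕ => F) 1 →L[ℝ] ℝ) (n : ℕ), ‖g.comp (sg n)‖ ≤ ‖g‖ := fun g n =>
    (g.opNorm_comp_le _).trans (mul_le_of_le_one_right (norm_nonneg _) (hsg n))
  have hbd : ∀ (h : lp (fun _ : ℕ => (F →L[ℝ] ℝ)) ∞) (y : lp (fun _ : ℕ => F) 1) (n : ℕ),
      ‖h n (y n)‖ ≤ ‖h‖ * ‖y n‖ := fun h y n =>
    ((h n).le_opNorm _).trans (mul_le_mul_of_nonneg_right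
      (lp.norm_apply_le_norm (by simp) h n) (norm_nonneg _))
  have hs2 : ∀ (h : lp (fun _ : ℕ => (F →L[ℝ] ℝ)) ∞) (y : lp (fun _ : ℕ => F) 1),
      Summable fun n => h n (y n) := fun h y =>
    Summable.of_norm_bounded ((hsum y).mul_left ‖h‖) (hbd h y)
  have hb2 : ∀ (h : lp (fun _ : ℕ => (F →L[ℝ] ℝ)) ∞) (y : lp (fun _ : ℕ => F) 1),
      ‖∑' n, h n (y n)‖ ≤ ‖h‖ * ‖y‖ := fun h y => by
    rw [hnorm, ← tsum_mul_left]
    exact tsum_of_norm_bounded ((hsum y).mul_left ‖h‖).hasSum (hbd h y)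
  let Ψ : lp (fun _ : ℕ => (F →L[ℝ] ℝ)) ∞ → (lp (fun _ : ℕ => F) 1 →L[ℝ] ℝ) := fun h =>
    LinearMap.mkContinuous
      { toFun := fun y => ∑' n, h n (y n)
        map_add' := fun x y => by
          rw [← (hs2 h x).tsum_add (hs2 h y)]
          exact tsum_congr fun n => map_add (h n) (x n) (y n)
        map_smul' := fun c x => by
          rw [RingHom.id_apply, smul_eq_mul, ← tsum_mul_left]
          exact tsum_congr fun n => map_smul (h n) c (x n) } ‖h‖ (hb2 h)
  have hΨ : ∀ h y, Ψ h y = ∑' n, h n (y n) := fun h y => rfl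
  have hΨn : ∀ h, ‖Ψ h‖ ≤ ‖h‖ := fun h => LinearMap.mkContinuous_norm_le _ (norm_nonneg _) _
  refine ⟨LinearEquiv.toContinuousLinearEquivOfBounds
    { toFun := fun g => ⟨fun n => g.comp (sg n), memℓp_infty ⟨‖g‖, by
        rintro _ ⟨n, rfl⟩; exact hΦ g n⟩⟩
      invFun := Ψ
      map_add' := fun f g => by
        ext n x
        rfl
      map_smul' := fun c g => by
        ext n x
        rfl
      left_inv := fun g => by
        ext y
        rw [hΨ]
        have h1 := (lp.hasSum_single (p := 1) (by norm_num) y).mapL g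
        exact h1.tsum_eq
      right_inv := fun h => by
        ext n x
        change Ψ h (lp.single 1 n x) = h n x
        rw [hΨ, tsum_eq_single n]
        · rw [lp.single_apply_self]
        · intro m hm
          rw [lp.single_apply_ne _ _ _ hm, map_zero] } 1 1 (fun g => ?_) (fun h => ?_)⟩
  · rw [one_mul]
    exact lp.norm_le_of_forall_le (norm_nonneg g) (hΦ g)
  · rw [one_mul]
    exact hΨn h

end dualL1

end Pool.Agent.P8H75.LN
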