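import Mathlib
import Pool.Agent.P8H75.LN1

/-!
Lipschitz functions on nets: `Lip_0(N)` is isomorphic to its countable `ℓ_∞`-sum.
-/

set_option autoImplicit false

open Filter Topology
open scoped ENNReal

namespace Pool.Agent.P8H75.LN

open Pool.Agent.H621R3.LF (PBanach IsLipFree EllP)

universe u

/-- A `1`-Banach space in the sense of the class `PBanach` is a normed space. -/
@[reducible] def nsp (F : Type u) [NormedAddCommGroup F] [Module ℝ F] [PBanach 1 F] :
    NormedSpace ℝ F where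
  norm_smul_le c y := by
    rw [PBanach.norm_smul (p := 1) c y, Real.rpow_one, Real.norm_eq_abs]

/-- The dual of a Lipschitz free space is the space of Lipschitz functions. -/
theorem dual_free {M : Type u} [MetricSpace M] (o : M) (F : Type u) [NormedAddCommGroup F]
    [NormedSpace ℝ F] (δ : M → F) (h : IsLipFree 1 o δ) :
    Nonempty ((F →L[ℝ] ℝ) ≃L[ℝ] Lip0 M o) := by
  have hp : PBanach 1 (ULift.{u} ℝ) := by
    refine ⟨inferInstance, fun c y => ?_⟩
    rw [norm_smul, Real.rpow_one, Real.norm_eq_abs]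
  have hb : ∀ (g : F →L[ℝ] ℝ) (x y : M), |g (δ x) - g (δ y)| ≤ ‖g‖ * dist x y := fun g x y => by
    rw [← map_sub]
    have h1 := g.le_opNorm (δ x - δ y)
    rwa [h.isometric, Real.rpow_one] at h1
  have hlift : ∀ f : Lip0 M o, ∃ g : F →L[ℝ] ℝ, (∀ x, g (δ x) = f.fn x) ∧ ‖g‖ ≤ ‖f‖ := by
    intro f
    obtain ⟨T, hT1, hT2⟩ := h.lift (ULift.{u} ℝ) hp (fun x => ⟨f.fn x⟩) ‖f‖ (norm_nonneg _)
      (by rw [f.fn_base]; rfl) (fun x y => by
        rw [Real.rpow_one]
        exact f.abs_sub_le x y)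
    let dn : ULift.{u} ℝ →L[ℝ] ℝ := (LinearIsometryEquiv.ulift ℝ ℝ : ULift.{u} ℝ →L[ℝ] ℝ)
    refine ⟨dn.comp T, fun x => ?_, ?_⟩
    · change (T (δ x)).down = f.fn x
      rw [hT1]
    · refine ContinuousLinearMap.opNorm_le_bound _ (norm_nonneg _) fun v => ?_
      have h1 := hT2 v
      rw [Real.rpow_one] at h1
      exact h1
  have huniq : ∀ g g' : F →L[ℝ] ℝ, (∀ x, g (δ x) = g' (δ x)) → g = g' := by
    intro g g' hgg
    let up : ℝ →L[ℝ] ULift.{u} ℝ := ((LinearIsometryEquiv.ulift ℝ ℝ).symm : ℝ →L[ℝ] ULift.{u} ℝ)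
    have h1 := h.unique (ULift.{u} ℝ) hp (up.comp g) (up.comp g') (fun x => by
      change up (g (δ x)) = up (g' (δ x))
      rw [hgg])
    ext v
    have h2 := congrArg (fun S : F →L[ℝ] ULift.{u} ℝ => (S v).down) h1
    exact h2
  choose ext hext1 hext2 using hlift
  exact ⟨LinearEquiv.toContinuousLinearEquivOfBounds
    { toFun := fun g => Lip0.mk (fun x => g (δ x)) (by rw [h.map_base, map_zero]) ‖g‖
        (norm_nonneg _) (hb g)
      invFun := ext
      map_add' := fun f g => Lip0.ext fun x => rfl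
      map_smul' := fun c g => Lip0.ext fun x => rfl
      left_inv := fun g => huniq _ _ fun x => hext1 _ x
      right_inv := fun f => Lip0.ext fun x => hext1 f x } 1 1
    (fun g => by
      rw [one_mul]
      exact Lip0.norm_le' _ (norm_nonneg _) (hb g))
    (fun f => by
      rw [one_mul]
      exact hext2 f)⟩

/-- congruence for `ℓ_∞`-sums -/
theorem li_congr {V W : Type*} [NormedAddCommGroup V] [NormedSpace ℝ V] [NormedAddCommGroup W]
    [NormedSpace ℝ W] (L : V ≃L[ℝ] W) :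
    Nonempty (lp (fun _ : ℕ => V) ∞ ≃L[ℝ] lp (fun _ : ℕ => W) ∞) := by
  have h1 : ∀ (f : lp (fun _ : ℕ => V) ∞) (j : ℕ), ‖L (f j)‖ ≤ ‖(L : V →L[ℝ] W)‖ * ‖f‖ :=
    fun f j => ((L : V →L[ℝ] W).le_opNorm _).trans
      (mul_le_mul_of_nonneg_left (lp.norm_apply_le_norm (by simp) f j) (norm_nonneg _))
  have h2 : ∀ (f : lp (fun _ : ℕ => W) ∞) (j : ℕ),
      ‖L.symm (f j)‖ ≤ ‖(L.symm : W →L[ℝ] V)‖ * ‖f‖ :=
    fun f j => ((L.symm : W →L[ℝ] V).le_opNorm _).trans
      (mul_le_mul_of_nonneg_left (lp.norm_apply_le_norm (by simp) f j) (norm_nonneg _))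
  exact ⟨LinearEquiv.toContinuousLinearEquivOfBounds
    { toFun := fun f => ⟨fun j => L (f j), memℓp_infty ⟨_, by rintro _ ⟨i, rfl⟩; exact h1 f i⟩⟩
      invFun := fun f => ⟨fun j => L.symm (f j), memℓp_infty ⟨_, by
        rintro _ ⟨i, rfl⟩; exact h2 f i⟩⟩
      map_add' := fun f g => by
        ext j
        exact map_add L (f j) (g j)
      map_smul' := fun r f => by
        ext j
        exact map_smul L r (f j)
      left_inv := fun f => by
        ext j
        exact L.symm_apply_apply (f j)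
      right_inv := fun f => by
        ext j
        exact L.apply_symm_apply (f j) } _ _
    (fun f => lp.norm_le_of_forall_le (by positivity) (h1 f))
    (fun f => lp.norm_le_of_forall_le (by positivity) (h2 f))⟩

/-- `Lip_0` of a net of a normed space is isomorphic to its `ℓ_∞`-sum. -/
theorem net_li (X : Type u) [NormedAddCommGroup X] [NormedSpace ℝ X] (N : Set X)
    (hN : Pool.Agent.H621R3.LF.IsNet N) (o : N) :
    Nonempty (Lip0 N o ≃L[ℝ] lp (fun _ : ℕ => Lip0 N o) ∞) := by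
  obtain ⟨F, iF, iM, iP, δ, hfree⟩ :=
    Pool.Agent.Results.MP_777e28_an.NetIso.result.1 1 one_pos le_rfl N o
  obtain ⟨T⟩ := Pool.Agent.Results.MP_777e28_an.NetIso.result.2 X N hN 1 one_pos le_rfl o F δ hfree
  let iN : NormedSpace ℝ F := nsp F
  obtain ⟨e1⟩ := dual_free o F δ hfree
  obtain ⟨e3⟩ := dual_l1 (F := F)
  -- `EllP 1 F` is the `ℓ_1`-sum
  let I : EllP 1 F ≃L[ℝ] lp (fun _ : ℕ => F) 1 :=
    LinearEquiv.toContinuousLinearEquivOfBounds
      { toFun := fun f => (f : lp (fun _ : ℕ => F) 1)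
        invFun := fun f => (f : EllP 1 F)
        map_add' := fun f g => rfl
        map_smul' := fun r f => rfl
        left_inv := fun f => rfl
        right_inv := fun f => rfl } 1 1 (fun f => by rw [one_mul]; exact le_rfl)
      (fun f => by rw [one_mul]; exact le_rfl)
  let T' : F ≃L[ℝ] lp (fun _ : ℕ => F) 1 := T.trans I
  let e2 : (F →L[ℝ] ℝ) ≃L[ℝ] (lp (fun _ : ℕ => F) 1 →L[ℝ] ℝ) :=
    T'.arrowCongr (ContinuousLinearEquiv.refl ℝ ℝ)
  obtain ⟨e4⟩ := li_congr e1
  exact ⟨((e1.symm.trans e2).trans e3).trans e4⟩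

end Pool.Agent.P8H75.LN
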